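import Mathlib

-- part MP_5c7750_co.Val
section

/-! Places of the complex numbers: existence lemmas. -/

namespace Pool.Agent.MP_5c7750_co

open IsLocalRing Polynomial

theorem res_zero {O : ValuationSubring ℂ} (a : O) : residue O a = 0 ↔ (a : ℂ) ∈ O.nonunits := by
  rw [residue_eq_zero_iff, ValuationSubring.coe_mem_nonunits_iff]

theorem exists_val {R : Type} [CommRing R] (f : R →+* ℂ) (hf : Function.Injective f)
    (P : Ideal R) [hP : P.IsPrime] :
    ∃ O : ValuationSubring ℂ, (∀ a, f a ∈ O) ∧ ∀ a, f a ∈ O.nonunits ↔ a ∈ P := by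
  have hu : ∀ a : P.primeCompl, IsUnit (f a) := fun a =>
    Ne.isUnit fun h => a.2 (by rw [(map_eq_zero_iff f hf).1 h]; exact P.zero_mem)
  let g : Localization.AtPrime P →+* ℂ := IsLocalization.lift hu
  have hg : ∀ a, g (algebraMap R _ a) = f a := IsLocalization.lift_eq hu
  obtain ⟨O, h, hl⟩ := IsLocalRing.exists_factor_valuationRing g
  refine ⟨O, fun a => hg a ▸ h _, fun a => ?_⟩
  have h1 := isUnit_map_iff (g.codRestrict O.toSubring h) (algebraMap R _ a)
  rw [IsLocalization.AtPrime.isUnit_to_map_iff _ P] at h1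
  rw [← hg, ← not_iff_not]
  refine Iff.trans ?_ h1
  exact (not_congr (ValuationSubring.coe_mem_nonunits_iff (a := ⟨_, h _⟩))).trans not_not

theorem exists_small {J : Type} {a : J → ℂ} (ha : AlgebraicIndependent ℚ a) (j0 : J) :
    ∃ O : ValuationSubring ℂ, a j0 ∈ O.nonunits ∧ (∀ j, j ≠ j0 → a j / a j0 ∈ O.nonunits) ∧
      (6 : ℂ) ∉ O.nonunits := by
  let K := IntermediateField.adjoin ℚ {a j0}
  let p : K := ⟨a j0, IntermediateField.mem_adjoin_simple_self _ _⟩
  have h0 : Transcendental ℚ p :=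
    (transcendental_algebraMap_iff (algebraMap K ℂ).injective).1 (ha.transcendental j0)
  have hp : p ≠ 0 := fun h => h0 (h ▸ isAlgebraic_zero)
  have h1 : AlgebraicIndependent K fun j : {j | j ≠ j0} => a j := by
    refine IntermediateField.algebraicIndependent_adjoin_iff.2 ?_
    have := ha.adjoin_of_disjoint (s := {j0}) (t := {j | j ≠ j0}) (by simp)
    rwa [Set.image_singleton] at this
  have h2 := h1.polynomial_aeval_of_transcendental (f := fun _ => C p⁻¹ * X) fun _ =>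
    Polynomial.transcendental _ (by rw [natDegree_C_mul_X _ (inv_ne_zero hp)]; simp)
      (by simp [hp])
  obtain ⟨O, -, hO⟩ := exists_val ((MvPolynomial.aeval (R := K) fun j : {j | j ≠ j0} =>
      aeval (a j) (C p⁻¹ * X)).toRingHom.comp (MvPolynomial.map (aeval p).toRingHom))
    (Function.Injective.comp (g := MvPolynomial.aeval (R := K) fun j : {j | j ≠ j0} =>
      aeval (a j) (C p⁻¹ * X)) h2
      (MvPolynomial.map_injective (aeval p).toRingHom (transcendental_iff_injective.1 h0)))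
    (RingHom.ker ((Polynomial.constantCoeff : ℚ[X] →+* ℚ).comp MvPolynomial.constantCoeff))
    (hP := RingHom.ker_isPrime _)
  refine ⟨O, ?_, fun j hj => ?_, fun h => ?_⟩
  · simpa [p] using (hO (MvPolynomial.C X)).2 (by simp)
  · simpa [p, div_eq_inv_mul] using (hO (MvPolynomial.X ⟨j, hj⟩)).2 (by simp)
  · have := (hO 6).1 (by rwa [map_ofNat])
    rw [RingHom.mem_ker, map_ofNat] at this
    norm_num at this

/-- `e` is residually transcendental over `F`. -/
def Gauss (F : Subfield ℂ) (O : ValuationSubring ℂ) (e : O) : Prop :=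
  ∀ c : Fin 8 → O, (∀ i, (c i : ℂ) ∈ F) → ∑ i, residue O (c i) * residue O e ^ i.val = 0 →
    ∀ i, residue O (c i) = 0

theorem exists_gauss (F : Subfield ℂ) (O1 : ValuationSubring ℂ) {e : ℂ}
    (he : Transcendental F e) : ∃ (O : ValuationSubring ℂ) (h : e ∈ O), Gauss F O ⟨e, h⟩ ∧
      ∀ c ∈ F, c ∈ O.nonunits ↔ c ∈ O1.nonunits := by
  let V : Subring ℂ := O1.toSubring ⊓ F.toSubring
  let i : V →+* F := Subring.inclusion (S := V) (T := F.toSubring) inf_le_right
  let k : V →+* ResidueField O1 :=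
    (residue O1).comp (Subring.inclusion (S := V) (T := O1.toSubring) inf_le_left)
  obtain ⟨O, h1, h2⟩ := exists_val ((aeval (R := F) e).toRingHom.comp (mapRingHom i))
    ((transcendental_iff_injective.1 he).comp
      (map_injective _ (Subring.inclusion_injective _)))
    (RingHom.ker (mapRingHom k)) (hP := RingHom.ker_isPrime _)
  have h3 : ∀ c : V, (c : ℂ) ∈ O ∧ ((c : ℂ) ∈ O.nonunits ↔ (c : ℂ) ∈ O1.nonunits) := fun c => by
    have h4 := h2 (C c)
    have h5 := h1 (C c)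
    simp only [RingHom.comp_apply, coe_mapRingHom, map_C, RingHom.mem_ker, C_eq_zero,
      AlgHom.toRingHom_eq_coe, RingHom.coe_coe, aeval_C] at h4 h5
    exact ⟨h5, h4.trans (res_zero _)⟩
  have h4 : ∀ c ∈ F, c ∈ O → c ∈ O1 := fun c hc h => by
    by_contra h5
    have h6 := (h3 ⟨c⁻¹, (O1.mem_or_inv_mem c).resolve_left h5, F.inv_mem hc⟩).2.2
      (O1.inv_mem_nonunits_iff.2 (Or.inr h5))
    rcases O.inv_mem_nonunits_iff.1 h6 with h7 | h7
    · exact h5 (h7 ▸ O1.zero_mem)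
    · exact h7 h
  have he' : e ∈ O := by simpa using h1 X
  refine ⟨O, he', fun c hc h j => ?_, fun c hc => ⟨fun h => ?_, fun h => ?_⟩⟩
  · let c' : Fin 8 → V := fun i => ⟨c i, h4 _ (hc i) (c i).2, hc i⟩
    have h5 := (h2 (∑ i, monomial i.val (c' i))).1 (by
      have h6 : (∑ i, c i * ⟨e, he'⟩ ^ i.val : O) ∈ maximalIdeal O := by
        rw [← residue_eq_zero_iff, map_sum]
        simpa only [map_mul, map_pow] using h
      convert ValuationSubring.coe_mem_nonunits_iff.2 h6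
      simp [c', i, ← C_mul_X_pow_eq_monomial]
      rfl)
    have h6 := congrArg (coeff · j.val) (RingHom.mem_ker.1 h5)
    simp only [coe_mapRingHom, coeff_map, finsetSum_coeff, coeff_monomial, Fin.val_inj,
      Finset.sum_ite_eq', Finset.mem_univ, if_true, coeff_zero] at h6
    exact (res_zero _).2 ((h3 (c' j)).2.2 ((res_zero _).1 h6))
  · exact (h3 ⟨c, h4 c hc (O.nonunits_le h), hc⟩).2.1 h
  · exact (h3 ⟨c, O1.nonunits_le h, hc⟩).2.2 h

/-- residues of the elements of `F` that lie in `O`. -/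
noncomputable def kF (F : Subfield ℂ) (O : ValuationSubring ℂ) : Subring (ResidueField O) :=
  (F.toSubring.comap O.subtype).map (residue O)

theorem mem_kF {F : Subfield ℂ} {O : ValuationSubring ℂ} {a : O} (h : (a : ℂ) ∈ F) :
    residue O a ∈ kF F O := ⟨a, h, rfl⟩

/-- no relation of degree at most six over `S`. -/
def Tr {k : Type} [Field k] (S : Subring k) (E : k) : Prop :=
  ∀ c0 c1 c2 c3 c4 c5 c6 : k, c0 ∈ S → c1 ∈ S → c2 ∈ S → c3 ∈ S → c4 ∈ S → c5 ∈ S → c6 ∈ S →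
    c0 + c1 * E + c2 * E ^ 2 + c3 * E ^ 3 + c4 * E ^ 4 + c5 * E ^ 5 + c6 * E ^ 6 = 0 →
    c0 = 0 ∧ c1 = 0 ∧ c2 = 0 ∧ c3 = 0 ∧ c4 = 0 ∧ c5 = 0 ∧ c6 = 0

theorem Gauss.tr {F : Subfield ℂ} {O : ValuationSubring ℂ} {e : O} (h : Gauss F O e) :
    Tr (kF F O) (residue O e) := by
  rintro _ _ _ _ _ _ _ ⟨c0, h0, rfl⟩ ⟨c1, h1, rfl⟩ ⟨c2, h2, rfl⟩ ⟨c3, h3, rfl⟩ ⟨c4, h4, rfl⟩
    ⟨c5, h5, rfl⟩ ⟨c6, h6, rfl⟩ h7
  have := h ![c0, c1, c2, c3, c4, c5, c6, 0] (fun i => by
    fin_cases i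
    exacts [h0, h1, h2, h3, h4, h5, h6, F.zero_mem]) (by
      simp only [Fin.sum_univ_eight]
      simpa using h7)
  exact ⟨this 0, this 1, this 2, this 3, this 4, this 5, this 6⟩

end Pool.Agent.MP_5c7750_co

end

-- part MP_5c7750_co.Alg
section

/-! Algebraic lemmas on unit distances in isotropic coordinates, read at a place. -/

namespace Pool.Agent.MP_5c7750_co

open IsLocalRing

variable {O : ValuationSubring ℂ} {F : Subfield ℂ}

/-- closed under roots of quadratic polynomials. -/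
def QC (F : Subfield ℂ) : Prop := ∀ t p q : ℂ, p ∈ F → q ∈ F → t ^ 2 + p * t + q = 0 → t ∈ F

theorem res_eq {a b : O} (h : (a : ℂ) = b) : residue O a = residue O b :=
  congrArg _ (Subtype.ext h)

theorem nu_inv {a : ℂ} (h : a ∉ O) : a⁻¹ ∈ O.nonunits := O.inv_mem_nonunits_iff.2 (Or.inr h)

theorem mem_of_quad {t : ℂ} (a b c : O) (ha : residue O a ≠ 0)
    (h : a * t ^ 2 + b * t + c = 0) : t ∈ O := by
  by_contra ht
  have h0 : t ≠ 0 := fun h => ht (h ▸ O.zero_mem)
  let s : O := ⟨t⁻¹, O.nonunits_le (nu_inv ht)⟩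
  have hs : residue O s = 0 := (res_zero s).2 (nu_inv ht)
  have := res_eq (a := a + b * s + c * s ^ 2) (b := 0) (by
    simp only [s]
    push_cast
    field_simp
    linear_combination h)
  simp [hs, ha] at this

theorem mem_of_mul {t : ℂ} (a b : O) (ha : residue O a ≠ 0) (h : a * t = b) : t ∈ O :=
  mem_of_quad a (-b) 0 ha (by push_cast; linear_combination t * h)

theorem fin_of_two {a b a' b' Z W : ℂ} (h : (Z - a) * (W - b) = 1)
    (h' : (Z - a') * (W - b') = 1) (ha : a ∈ O) (ha' : a' ∈ O) (hb : b - b' ∉ O.nonunits) :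
    Z ∈ O := by
  by_contra hZ
  have k : ∀ a b : ℂ, (Z - a) * (W - b) = 1 → a ∈ O → W - b ∈ O.nonunits := fun a b h ha => by
    rw [eq_inv_of_mul_eq_one_right h]
    exact nu_inv fun h2 => hZ (by simpa using O.add_mem _ _ h2 ha)
  have := sub_mem (k _ _ h' ha') (k _ _ h ha)
  exact hb (by simpa using this)

theorem two_three (h6 : (6 : ℂ) ∉ O.nonunits) :
    (2 : ResidueField O) ≠ 0 ∧ (3 : ResidueField O) ≠ 0 := by
  have : (6 : ResidueField O) ≠ 0 := fun h => h6 ((res_zero (6 : O)).1 (by rw [map_ofNat, h]))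
  constructor <;> intro h <;> apply this
  · linear_combination 3 * h
  · linear_combination 2 * h

theorem exists_kappa (hF : QC F) {E E' : ResidueField O} (h : E ^ 2 - E * E' + E' ^ 2 = 0) :
    ∃ κ ∈ kF F O, κ ^ 2 - κ + 1 = 0 ∧ E' = κ * E := by
  obtain ⟨s, hs⟩ := IsAlgClosed.exists_eq_mul_self (-3 : ℂ)
  have h1 : ((1 + s) / 2) ^ 2 + (-1) * ((1 + s) / 2) + 1 = 0 := by linear_combination -hs / 4
  let κ : O := ⟨(1 + s) / 2, mem_of_quad 1 (-1) 1 (by simp) (by simpa using h1)⟩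
  have h2 : residue O κ ∈ kF F O := mem_kF (hF _ _ _ (neg_mem F.one_mem) F.one_mem h1)
  have h3 := res_eq (a := κ ^ 2 - κ + 1) (b := 0) (by
    simp only [κ]; push_cast; linear_combination h1)
  simp only [map_add, map_sub, map_pow, map_one, map_zero] at h3
  have h4 : (E' - residue O κ * E) * (E' - (1 - residue O κ) * E) = 0 := by
    linear_combination h - E ^ 2 * h3
  rcases mul_eq_zero.1 h4 with h5 | h5
  · exact ⟨_, h2, h3, by linear_combination h5⟩
  · exact ⟨_, sub_mem (one_mem _) h2, by linear_combination h3, by linear_combination h5⟩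

theorem line1 {A B : O} {μ δ Δ : ℂ} (hμ : μ ∈ O.nonunits) (hμ0 : μ ≠ 0) (hμF : μ ∈ F)
    (hδ : δ ∈ F) (hΔ : Δ ∈ F) (h : (μ * A - δ) * (μ * B - Δ) = 1) (h1 : Δ ∉ O.nonunits)
    (h2 : δ / Δ ∈ O) : ∃ g2 ∈ kF F O, ∃ g3 ∈ kF F O,
      residue O A + g2 * residue O B + g3 = 0 := by
  have h0 : Δ ≠ 0 := fun h => h1 (h ▸ zero_mem _)
  let m : O := ⟨μ, O.nonunits_le hμ⟩
  let i : O := ⟨Δ⁻¹, by_contra fun h => h1 (by simpa using nu_inv h)⟩
  let r : O := ⟨δ / Δ, h2⟩
  have h3 : ((m * A * B * i - A - r * B : O) : ℂ) = (Δ⁻¹ - δ) / μ := by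
    simp only [m, i, r]
    push_cast
    field_simp
    linear_combination h
  refine ⟨_, mem_kF (a := r) (F.div_mem hδ hΔ), _, mem_kF (a := m * A * B * i - A - r * B)
    (h3 ▸ F.div_mem (sub_mem (F.inv_mem hΔ) hδ) hμF), ?_⟩
  simp [(res_zero m).2 hμ]

theorem line {A B : O} {μ δ Δ : ℂ} (hμ : μ ∈ O.nonunits) (hμ0 : μ ≠ 0) (hμF : μ ∈ F)
    (hδ : δ ∈ F) (hΔ : Δ ∈ F) (h : (μ * A - δ) * (μ * B - Δ) = 1) :
    ∃ g1 ∈ kF F O, ∃ g2 ∈ kF F O, ∃ g3 ∈ kF F O,
      g1 * residue O A + g2 * residue O B + g3 = 0 ∧ ¬ (g1 = 0 ∧ g2 = 0) := by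
  by_contra hc
  have k1 : Δ ∉ O.nonunits → δ / Δ ∈ O → False := fun h1 h2 => by
    obtain ⟨g2, a2, g3, a3, h3⟩ := line1 hμ hμ0 hμF hδ hΔ h h1 h2
    exact hc ⟨1, one_mem _, g2, a2, g3, a3, by linear_combination h3, by simp⟩
  have k2 : δ ∉ O.nonunits → Δ / δ ∈ O → False := fun h1 h2 => by
    obtain ⟨g2, a2, g3, a3, h3⟩ := line1 hμ hμ0 hμF hΔ hδ ((mul_comm _ _).trans h) h1 h2
    exact hc ⟨g2, a2, 1, one_mem _, g3, a3, by linear_combination h3, by simp⟩
  have k3 : ∀ a b : ℂ, a ∈ O.nonunits → b ∉ O.nonunits → a / b ∈ O := fun a b ha hb =>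
    O.mul_mem _ _ (O.nonunits_le ha) (by_contra fun h => hb (by simpa using nu_inv h))
  by_cases h1 : Δ ∈ O.nonunits <;> by_cases h2 : δ ∈ O.nonunits
  · let m : O := ⟨μ, O.nonunits_le hμ⟩
    let a : O := ⟨δ, O.nonunits_le h2⟩
    let b : O := ⟨Δ, O.nonunits_le h1⟩
    have := res_eq (a := (m * A - a) * (m * B - b)) (b := 1) h
    simp [(res_zero m).2 hμ, (res_zero a).2 h2, (res_zero b).2 h1] at this
  · exact k2 h2 (k3 _ _ h1 h2)
  · exact k1 h1 (k3 _ _ h2 h1)
  · rcases O.mem_or_inv_mem (δ / Δ) with h3 | h3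
    · exact k1 h1 h3
    · exact k2 h2 (by simpa using h3)

theorem case_one {A B : O} {E κ : ResidueField O} (h6 : (6 : ℂ) ∉ O.nonunits)
    (hg : Tr (kF F O) E) (hκ : κ ∈ kF F O) (h0 : κ ^ 2 - κ + 1 = 0)
    (hA : residue O A = (1 + κ) * E) (hB : residue O B * E = 2 - κ) {δ Δ : ℂ} (hδ : δ ∈ F)
    (hΔ : Δ ∈ F) (h : ((A : ℂ) - δ) * (B - Δ) = 1) : False := by
  obtain ⟨h2, h3⟩ := two_three h6
  have z := (kF F O).zero_mem
  have m1 : 1 + κ ∈ kF F O := add_mem (one_mem _) hκ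
  have m2 : 2 - κ ∈ kF F O := sub_mem (ofNat_mem _ 2) hκ
  have n1 : 1 + κ ≠ 0 := fun h => h3 (by linear_combination (2 - κ) * h + h0)
  have n2 : 2 - κ ≠ 0 := fun h => h3 (by linear_combination (1 + κ) * h + h0)
  have k : ∀ (A B : O) (δ Δ : ℂ), ((A : ℂ) - δ) * (B - Δ) = 1 → δ ∉ O →
      ∃ b : O, (b : ℂ) = Δ ∧ residue O b = residue O B := fun A B δ Δ h h4 => by
    have h5 : (B : ℂ) - Δ ∈ O.nonunits := by
      rw [eq_inv_of_mul_eq_one_right h]
      exact nu_inv fun h2 => h4 (by simpa using sub_mem A.2 h2)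
    let c : O := ⟨B - Δ, O.nonunits_le h5⟩
    exact ⟨B - c, by simp [c], by simp [(res_zero c).2 h5]⟩
  by_cases h4 : δ ∈ O
  · by_cases h5 : Δ ∈ O
    · lift δ to O using h4
      lift Δ to O using h5
      have r := res_eq (a := (A - δ) * (B - Δ)) (b := 1) h
      simp only [map_mul, map_sub, map_one] at r
      have a1 := mem_kF hδ
      have a2 := mem_kF hΔ
      obtain ⟨b0, b1, b2, -⟩ := hg (-(residue O δ * (2 - κ))) (2 + residue O δ * residue O Δ)
        (-(residue O Δ * (1 + κ))) 0 0 0 0 (neg_mem (mul_mem a1 m2))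
        (add_mem (ofNat_mem _ 2) (mul_mem a1 a2)) (neg_mem (mul_mem a2 m1)) z z z z (by
          rw [hA] at r
          linear_combination E * r - ((1 + κ) * E - residue O δ) * hB + E * h0)
      rw [neg_eq_zero, mul_eq_zero, or_iff_left n2] at b0
      exact h2 (by simpa [b0] using b1)
    · obtain ⟨b, rfl, hb⟩ := k B A Δ δ ((mul_comm _ _).trans h) h5
      exact n1 (hg (-residue O b) (1 + κ) 0 0 0 0 0 (neg_mem (mem_kF hδ)) m1 z z z z z
        (by linear_combination -hb - hA)).2.1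
  · obtain ⟨b, rfl, hb⟩ := k A B δ Δ h h4
    exact n2 (hg (2 - κ) (-residue O b) 0 0 0 0 0 m2 (neg_mem (mem_kF hΔ)) z z z z z
      (by linear_combination -E * hb - hB)).1

theorem kne (hF : QC F) (h6 : (6 : ℂ) ∉ O.nonunits) {e ε e' ε' A B d D t π : O}
    (hg : Tr (kF F O) (residue O e)) (hπ : residue O π = 0) (hπ0 : (π : ℂ) ≠ 0)
    (hπF : (π : ℂ) ∈ F) (hdF : (d : ℂ) ∈ F) (hDF : (D : ℂ) ∈ F) (hd : residue O d ≠ 0)
    (hD : residue O D ≠ 0) (h1 : e * ε = 1) (h2 : e' * ε' = 1) (h3 : e ^ 3 + e' ^ 3 = π * t)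
    (h4 : (A - e) * (B - ε) = 1) (h5 : (A - π * d - e') * (B - π * D - ε') = 1) {δ Δ : ℂ}
    (hδ : δ ∈ F) (hΔ : Δ ∈ F) (h7 : ((A : ℂ) - δ) * (B - Δ) = 1) : False := by
  obtain ⟨n2, n3⟩ := two_three h6
  have z := (kF F O).zero_mem
  have ad := mem_kF hdF
  have aD := mem_kF hDF
  have r1 := congrArg (residue O) h1
  have r2 := congrArg (residue O) h2
  have r3 := congrArg (residue O) h3
  have r4 := congrArg (residue O) h4
  have r5 := congrArg (residue O) h5
  simp only [map_mul, map_sub, map_add, map_pow, map_one, hπ, zero_mul, sub_zero]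
    at r1 r2 r3 r4 r5
  have hE : residue O e ≠ 0 := left_ne_zero_of_mul_eq_one r1
  have hne : residue O e' - residue O e ≠ 0 := fun h =>
    mul_ne_zero n2 (pow_ne_zero 3 hE) (by
      rw [sub_eq_zero.1 h] at r3
      linear_combination r3)
  have hA : residue O A = residue O B * residue O e * residue O e' := by
    refine (mul_left_cancel₀ hne ?_).symm
    linear_combination (residue O e * residue O e') * (r4 - r5)
      + (residue O A * residue O e' - residue O e * residue O e') * r1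
      - (residue O A * residue O e - residue O e * residue O e') * r2
  have hB : residue O B = 0 ∨ residue O A = residue O e + residue O e' := by
    refine (mul_eq_zero.1 ?_).imp_right sub_eq_zero.1
    linear_combination r4 + residue O ε * hA + (residue O B * residue O e' - 1) * r1
  obtain ⟨m, hm⟩ : ∃ m, m = e * (A - e) := ⟨_, rfl⟩
  obtain ⟨m', hm'⟩ : ∃ m', m' = e' * (A - π * d - e') := ⟨_, rfl⟩
  have e1 : B * m = A := by
    rw [hm]; linear_combination e * h4 + (A - e) * h1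
  have e2 : B * (m - m') = π * (d - D * m') := by
    rw [hm'] at *
    linear_combination e1 - e' * h5 - (A - π * d - e') * h2
  have s1 := congrArg (residue O) hm
  have s2 := congrArg (residue O) hm'
  simp only [map_mul, map_sub, hπ, zero_mul, sub_zero] at s1 s2
  by_cases hs : residue O e + residue O e' = 0
  · have hA0 : residue O A = 0 := hB.elim (fun h => by rw [hA, h]; ring) fun h => h.trans hs
    have hE' : residue O e' = -residue O e := by linear_combination hs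
    rw [hA0] at s1 s2
    rw [hE'] at s2
    have hη : ((e : ℂ) + e') / π ∈ O := mem_of_mul (e ^ 2 - e * e' + e' ^ 2) t (by
      simp only [map_mul, map_sub, map_add, map_pow, hE']
      intro h
      exact mul_ne_zero n3 (pow_ne_zero 2 hE) (by linear_combination h)) (by
        have := congrArg (fun a : O => (a : ℂ)) h3
        push_cast at this ⊢
        field_simp
        linear_combination this)
    obtain ⟨η, hη'⟩ : ∃ η : O, e + e' = π * η := ⟨⟨_, hη⟩, Subtype.ext (by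
      push_cast; field_simp)⟩
    obtain ⟨μ, hμ⟩ := IsAlgClosed.exists_eq_mul_self (π : ℂ)
    have hμ0 : μ ≠ 0 := fun h => hπ0 (by rw [hμ, h, mul_zero])
    have hμF : μ ∈ F := hF _ 0 _ F.zero_mem (neg_mem hπF) (by linear_combination -hμ)
    lift μ to O using mem_of_quad 1 0 (-π) (by simp) (by push_cast; linear_combination -hμ)
    have hμ1 : π = μ * μ := Subtype.ext hμ
    have hμ2 : residue O μ = 0 := by
      rw [hμ1, map_mul] at hπ
      exact mul_self_eq_zero.1 hπ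
    have e3 : (e - e') * m * B ^ 2 + π * (d * e' + (e' - e) * η) * B = π * (d - D * m') := by
      rw [← e2]
      linear_combination B * (e - e') * e1 - B * hm + B * hm' - B * (e' - e) * hη'
    have hu : residue O ((e - e') * m) ≠ 0 := by
      simp only [map_mul, map_sub, hE', s1]
      intro h
      exact mul_ne_zero n2 (pow_ne_zero 3 hE) (by linear_combination -h)
    have hb : (B : ℂ) / μ ∈ O := mem_of_quad ((e - e') * m) (μ * (d * e' + (e' - e) * η))
      (-(d - D * m')) hu (by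
        have := congrArg (fun a : O => (a : ℂ)) e3
        push_cast at this ⊢
        rw [hμ] at this
        field_simp
        linear_combination this)
    obtain ⟨b, rfl⟩ : ∃ b : O, B = μ * b := ⟨⟨_, hb⟩, Subtype.ext (by push_cast; field_simp)⟩
    have e4 : (e - e') * m * b ^ 2 + μ * (d * e' + (e' - e) * η) * b = d - D * m' := by
      refine mul_left_cancel₀ (a := π) (fun h => hπ0 (by rw [h]; rfl)) ?_
      rw [← e3, hμ1]; ring
    obtain ⟨g1, a1, g2, a2, g3, a3, h8, h9⟩ := line (A := b * m) (B := b)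
      ((res_zero μ).1 hμ2) hμ0 hμF hδ hΔ (by rw [← h7, ← e1]; push_cast; ring)
    have s3 := congrArg (residue O) e4
    simp only [map_mul, map_sub, map_add, map_pow, hμ2, zero_mul, add_zero, hE', s1, s2] at s3 h8
    obtain ⟨b0, -, -, -, -, -, b6⟩ := hg (residue O d * g2 ^ 2) 0
      (residue O D * g2 ^ 2 - 2 * residue O d * g1 * g2) (2 * g3 ^ 2)
      (residue O d * g1 ^ 2 - 2 * residue O D * g1 * g2) 0 (residue O D * g1 ^ 2)
      (mul_mem ad (pow_mem a2 2)) z (sub_mem (mul_mem aD (pow_mem a2 2))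
        (mul_mem (mul_mem (mul_mem (ofNat_mem _ 2) ad) a1) a2))
      (mul_mem (ofNat_mem _ 2) (pow_mem a3 2)) (sub_mem (mul_mem ad (pow_mem a1 2))
        (mul_mem (mul_mem (mul_mem (ofNat_mem _ 2) aD) a1) a2)) z (mul_mem aD (pow_mem a1 2)) (by
          linear_combination -(g2 - g1 * residue O e ^ 2) ^ 2 * s3 - 2 * residue O e ^ 3 *
            (residue O b * (g2 - g1 * residue O e ^ 2) - g3) * h8)
    exact h9 ⟨by simpa [hD] using b6, by simpa [hd] using b0⟩
  · obtain ⟨κ, aκ, h8, hE'⟩ := exists_kappa hF (E := residue O e) (E' := residue O e')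
      (mul_left_cancel₀ hs (by linear_combination r3))
    have hκ0 : κ ≠ 0 := fun h => by simp [h] at h8
    rcases hB with hB | hB
    · have hA0 : residue O A = 0 := by rw [hA, hB]; ring
      rw [hA0] at s1 s2
      rw [hE'] at s2
      have hu : residue O (m - m') ≠ 0 := by
        simp only [map_sub, s1, s2]
        intro h
        exact mul_ne_zero n3 (pow_ne_zero 2 hE) (by
          linear_combination -(1 + κ) * h + (κ + 2) * residue O e ^ 2 * h8)
      have hb : (B : ℂ) / π ∈ O := mem_of_mul (m - m') (d - D * m') hu (by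
        have := congrArg (fun a : O => (a : ℂ)) e2
        push_cast at this ⊢
        field_simp
        linear_combination this)
      obtain ⟨b, rfl⟩ : ∃ b : O, B = π * b := ⟨⟨_, hb⟩, Subtype.ext (by push_cast; field_simp)⟩
      have e4 : b * (m - m') = d - D * m' := by
        refine mul_left_cancel₀ (a := π) (fun h => hπ0 (by rw [h]; rfl)) ?_
        rw [← e2]; ring
      obtain ⟨g1, a1, g2, a2, g3, a3, h9, h10⟩ := line (A := b * m) (B := b)
        ((res_zero π).1 hπ) hπ0 hπF hδ hΔ (by rw [← h7, ← e1]; push_cast; ring)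
      have s3 := congrArg (residue O) e4
      simp only [map_mul, map_sub, s1, s2] at s3 h9
      obtain ⟨b0, -, -, -, b4, -⟩ := hg (g2 * residue O d) 0
        (g2 * residue O D * κ ^ 2 - g1 * residue O d + g3 * (κ ^ 2 - 1)) 0
        (-(g1 * residue O D * κ ^ 2)) 0 0 (mul_mem a2 ad) z (add_mem (sub_mem
          (mul_mem (mul_mem a2 aD) (pow_mem aκ 2)) (mul_mem a1 ad))
          (mul_mem a3 (sub_mem (pow_mem aκ 2) (one_mem _)))) z
        (neg_mem (mul_mem (mul_mem a1 aD) (pow_mem aκ 2))) z z (by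
          linear_combination -(g2 - g1 * residue O e ^ 2) * s3 +
            (κ ^ 2 - 1) * residue O e ^ 2 * h9)
      exact h10 ⟨by simpa [hD, hκ0] using b4, by simpa [hd] using b0⟩
    · refine case_one h6 hg aκ h8 (by rw [hB, hE']; ring) (mul_left_cancel₀ hκ0
        (mul_left_cancel₀ hE ?_)) hδ hΔ h7
      rw [hE'] at hA hB
      linear_combination hB - hA + residue O e * h8

theorem keq {u g γ d D : O} {e ε e' ε' υ : ℂ} (hg : ∀ c ∈ kF F O, residue O g ^ 3 + c ^ 3 ≠ 0)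
    (hu : (u : ℂ) ∈ F) (hd : residue O d = 0) (hD : residue O D = 0) (h1 : e * ε = 1)
    (h2 : e' * ε' = 1) (h3 : u * υ = 1) (h4 : (g : ℂ) * γ = 1) (h5 : e + e' = d + u + g)
    (h6 : ε + ε' = D + υ + γ)
    (h7 : (e ∈ O ∧ ε ∈ O) ∨ (e' ∈ O ∧ ε' ∈ O) → e ^ 3 + e' ^ 3 ∈ O.nonunits) : False := by
  have au := mem_kF hu
  have hs : residue O u + residue O g ≠ 0 := fun h => hg _ au (by
    linear_combination (residue O g ^ 2 - residue O g * residue O u + residue O u ^ 2) * h)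
  have hg0 : residue O g ≠ 0 := fun h => hg 0 (zero_mem _) (by simp [h])
  have h8 : (D * u * g + g + u) * (e * e') = u * g * (d + u + g) := by
    linear_combination -(u * g * e * e') * h6 - g * e * e' * h3 - u * e * e' * h4 + u * g * e' * h1
      + u * g * e * h2 + u * g * h5
  have hc : residue O (D * u * g + g + u) ≠ 0 := by simpa [hD, add_comm] using hs
  have k : ∀ e e' : ℂ, e + e' = d + u + g → (D * u * g + g + u) * (e * e') = u * g * (d + u + g) →
      e ∈ O := fun e e' h5 h8 =>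
    mem_of_quad _ (-((D * u * g + g + u) * (d + u + g))) (u * g * (d + u + g)) hc (by
      push_cast
      linear_combination (D * u * g + g + u) * e * h5 - h8)
  lift e to O using k _ _ h5 h8
  lift e' to O using k _ e (by rw [← h5, add_comm]) (by rw [← h8]; ring)
  have r5 := res_eq (a := e + e') (b := d + u + g) h5
  have r8 := res_eq (a := (D * u * g + g + u) * (e * e')) (b := u * g * (d + u + g)) h8
  simp only [map_mul, map_add, hd, hD, zero_mul, zero_add] at r5 r8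
  have r9 : (residue O g - residue O e) * (residue O g - residue O e') = 0 :=
    mul_left_cancel₀ hs (by
      linear_combination r8 - (residue O u + residue O g) * residue O g * r5)
  have h9 := (res_zero (e ^ 3 + e' ^ 3)).2 (h7 ((mul_eq_zero.1 r9).imp
    (fun h => ⟨e.2, mem_of_mul e 1 (by rwa [← sub_eq_zero.1 h]) h1⟩)
    fun h => ⟨e'.2, mem_of_mul e' 1 (by rwa [← sub_eq_zero.1 h]) h2⟩))
  simp only [map_add, map_pow] at h9
  refine hg _ au ?_
  rcases mul_eq_zero.1 r9 with h | h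
  · rw [sub_eq_zero.1 h] at r5 ⊢
    rw [show residue O u = residue O e' by linear_combination -r5, h9]
  · rw [sub_eq_zero.1 h] at r5 ⊢
    rw [show residue O u = residue O e by linear_combination -r5, add_comm, h9]

theorem step {π a b a' b' : O} (hπ : residue O π = 0) {z w z' w' : ℂ} (hz : z ∈ O) (hw : w ∈ O)
    (h1 : (z - π * a) * (w - π * b) = 1) (h2 : (z' - π * a') * (w' - π * b') = 1)
    (h3 : (z - z') * (w - w') = 1) : z' ∈ O ∧ w' ∈ O ∧ ∃ t : O, z ^ 3 + z' ^ 3 = π * t := by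
  lift z to O using hz
  lift w to O using hw
  have r := res_eq (a := (z - π * a) * (w - π * b)) (b := 1) h1
  simp only [map_mul, map_sub, hπ, zero_mul, sub_zero, map_one] at r
  have hz' : z' ∈ O := fin_of_two (a := z) (b := w) (W := w') (by linear_combination h3) h2 z.2
    (π * a').2 fun h => right_ne_zero_of_mul_eq_one r (by
      simpa [hπ] using (res_zero (w - π * b')).2 h)
  have hw' : w' ∈ O := fin_of_two (a := w) (b := z) (W := z') (by linear_combination h3)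
    ((mul_comm _ _).trans h2) w.2 (π * b').2 fun h => left_ne_zero_of_mul_eq_one r (by
      simpa [hπ] using (res_zero (z - π * a')).2 h)
  lift z' to O using hz'
  lift w' to O using hw'
  refine ⟨z'.2, w'.2, (z + z') * (z * z' * (a * w + b * z - π * a * b +
    (a' * w' + b' * z' - π * a' * b')) - z ^ 2 * (a' * w' + b' * z' - π * a' * b') -
    z' ^ 2 * (a * w + b * z - π * a * b)), ?_⟩
  push_cast
  linear_combination (z + z' : ℂ) * (-z ^ 2 * h2 - z' ^ 2 * h1 + z * z' * (h1 + h2 - h3))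

theorem mem_of_two (hF : QC F) {a b a' b' Z W : ℂ} (h : (Z - a) * (W - b) = 1)
    (h' : (Z - a') * (W - b') = 1) (ha : a ∈ F) (hb : b ∈ F) (ha' : a' ∈ F) (hb' : b' ∈ F)
    (hne : b ≠ b') : Z ∈ F ∧ W ∈ F := by
  have h0 := sub_ne_zero.2 hne
  have h1 : Z - a ∈ F := hF _ _ _ (sub_mem ha ha') (div_mem (sub_mem ha ha') (sub_mem hb hb'))
    (by
      field_simp
      linear_combination (Z - a) * h' - (Z - a') * h)
  have h2 := add_mem (inv_mem h1) hb
  rw [← eq_inv_of_mul_eq_one_right h, sub_add_cancel] at h2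
  exact ⟨by simpa using add_mem h1 ha, h2⟩

end Pool.Agent.MP_5c7750_co

end

-- part MP_5c7750_co.Geo
section

/-! Odd walks among points on circles whose centres lie in a fixed field. -/

namespace Pool.Agent.MP_5c7750_co

open IsLocalRing Complex Relation

/-- the plane. -/
abbrev P := EuclideanSpace ℝ (Fin 2)

/-- first isotropic coordinate. -/
noncomputable def zz (p : P) : ℂ := p 0 + p 1 * I

/-- second isotropic coordinate. -/
noncomputable def ww (p : P) : ℂ := p 0 - p 1 * I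

/-- unit distance in isotropic coordinates. -/
def Un (p q : P) : Prop := (zz p - zz q) * (ww p - ww q) = 1

theorem un_iff {p q : P} : Un p q ↔ dist p q = 1 := by
  rw [EuclideanSpace.dist_eq, Real.sqrt_eq_one, Fin.sum_univ_two, Real.dist_eq, Real.dist_eq,
    sq_abs, sq_abs, ← ofReal_inj, Un, zz, zz, ww, ww]
  push_cast
  constructor <;> intro h
  · linear_combination h + ((p 1 : ℂ) - q 1) ^ 2 * I_sq
  · linear_combination h - ((p 1 : ℂ) - q 1) ^ 2 * I_sq

theorem Un.symm {p q : P} (h : Un p q) : Un q p := by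
  unfold Un at *
  linear_combination h

theorem zz_inj {p q : P} (h : zz p = zz q) : p = q := by
  ext i
  fin_cases i
  · simpa [zz] using congrArg re h
  · simpa [zz] using congrArg im h

theorem ww_inj {p q : P} (h : ww p = ww q) : p = q := by
  ext i
  fin_cases i
  · simpa [ww] using congrArg re h
  · simpa [ww] using congrArg im h

/-- both coordinates lie in `F`. -/
def In (F : Subfield ℂ) (p : P) : Prop := zz p ∈ F ∧ ww p ∈ F

/-- `F` is algebraically closed in the complex numbers. -/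
def AC (F : Subfield ℂ) : Prop := ∀ t : ℂ, IsAlgebraic F t → t ∈ F

variable {F : Subfield ℂ} {O : ValuationSubring ℂ} {ι : Type} {x : ι → P}

open Polynomial in
theorem AC.qc (h : AC F) : QC F := fun t p q hp hq h1 =>
  h t ⟨X ^ 2 + C ⟨p, hp⟩ * X + C ⟨q, hq⟩, Monic.ne_zero (by monicity!), by
    simp only [map_add, map_mul, map_pow, aeval_X, aeval_C]; exact h1⟩

theorem In.of_two (hF : AC F) {p q r : P} (hp : In F p) (hq : In F q) (h : p ≠ q) (h1 : Un r p)
    (h2 : Un r q) : In F r :=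
  mem_of_two hF.qc h1 h2 hp.1 hp.2 hq.1 hq.2 fun h3 => h (ww_inj h3)

theorem In.of_un {p q : P} (hp : In F p) (h1 : Un q p) (h2 : zz q - zz p ∈ F) : In F q := by
  have h3 := add_mem (inv_mem h2) hp.2
  rw [← eq_inv_of_mul_eq_one_right h1, sub_add_cancel] at h3
  exact ⟨by simpa using add_mem h2 hp.1, h3⟩

theorem exists_place (hx : AlgebraicIndependent ℚ fun j : ι × Fin 2 => x j.1 j.2) (hF : AC F)
    {i0 : ι} (h0 : In F (x i0)) {e : ℂ} (he : e ∉ F) :
    ∃ (O : ValuationSubring ℂ) (E π : O), (E : ℂ) = e ∧ Tr (kF F O) (residue O E) ∧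
      residue O π = 0 ∧ (π : ℂ) ≠ 0 ∧ (π : ℂ) ∈ F ∧ (6 : ℂ) ∉ O.nonunits ∧
      ∀ i, In F (x i) → ∃ a b : O, zz (x i) = π * a ∧ ww (x i) = π * b ∧
        (i = i0 → residue O a = 1 ∧ residue O b = 1) ∧
        (i ≠ i0 → residue O a = 0 ∧ residue O b = 0) := by
  have hx' := hx.map' (f := IsScalarTower.toAlgHom ℚ ℝ ℂ) ofReal_injective
  obtain ⟨O1, h1, h2, h3⟩ := exists_small hx' (i0, 0)
  obtain ⟨O, h4, h5, h6⟩ := exists_gauss F O1 (e := e) fun h => he (hF _ h)
  have hπ0 : ((x i0 0 : ℝ) : ℂ) ≠ 0 := hx'.ne_zero (i0, 0)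
  have hπF : ((x i0 0 : ℝ) : ℂ) ∈ F := by
    convert div_mem (add_mem h0.1 h0.2) (ofNat_mem F 2) using 1
    simp [zz, ww]
  have hI : I ∈ O1 := mem_of_quad 1 0 1 (by simp) (by simp)
  have h7 : ∀ (j : ι × Fin 2) (c : ℂ), j ≠ (i0, 0) → c ∈ O1 →
      ((x j.1 j.2 : ℝ) : ℂ) / (x i0 0 : ℝ) * c ∈ O1.nonunits := fun j c hj hc => by
    have := (res_zero (O := O1) (⟨_, O1.nonunits_le (h2 j hj)⟩ * ⟨c, hc⟩)).1 (by
      rw [map_mul, (res_zero _).2 (h2 j hj), zero_mul])
    exact this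
  let π : O := ⟨(x i0 0 : ℝ), O.nonunits_le ((h6 _ hπF).2 h1)⟩
  have h8 : ∀ (z : ℂ) (c : O), (c : ℂ) ∈ F → z ∈ F → z / π - c ∈ O1.nonunits →
      ∃ a : O, z = π * a ∧ residue O a = residue O c := fun z c hc hz h => by
    have h9 := (h6 _ (sub_mem (div_mem hz hπF) hc)).2 h
    let r : O := ⟨_, O.nonunits_le h9⟩
    refine ⟨r + c, ?_, by simp [(res_zero r).2 h9]⟩
    simp only [r, π]
    push_cast
    field_simp
    ring
  refine ⟨O, ⟨e, h4⟩, π, rfl, h5.tr, (res_zero π).2 ((h6 _ hπF).2 h1), hπ0, hπF,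
    fun h => h3 ((h6 _ (ofNat_mem F 6)).1 h), fun i hi => ?_⟩
  have k1 : (i, (1 : Fin 2)) ≠ (i0, 0) := by simp
  by_cases h : i = i0
  · subst h
    obtain ⟨a, a1, a2⟩ := h8 _ 1 F.one_mem hi.1 (by
      convert h7 _ _ k1 hI using 1
      simp only [zz, π]
      push_cast
      field_simp
      ring)
    obtain ⟨b, b1, b2⟩ := h8 _ 1 F.one_mem hi.2 (by
      convert neg_mem (h7 _ _ k1 hI) using 1
      simp only [ww, π]
      push_cast
      field_simp
      ring)
    exact ⟨a, b, a1, b1, fun _ => ⟨by simpa using a2, by simpa using b2⟩, fun h => (h rfl).elim⟩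
  · have k0 : (i, (0 : Fin 2)) ≠ (i0, 0) := by simpa using h
    obtain ⟨a, a1, a2⟩ := h8 _ 0 F.zero_mem hi.1 (by
      convert add_mem (h7 _ _ k0 O1.one_mem) (h7 _ _ k1 hI) using 1
      simp only [zz, π]
      push_cast
      ring)
    obtain ⟨b, b1, b2⟩ := h8 _ 0 F.zero_mem hi.2 (by
      convert sub_mem (h7 _ _ k0 O1.one_mem) (h7 _ _ k1 hI) using 1
      simp only [ww, π]
      push_cast
      ring)
    exact ⟨a, b, a1, b1, fun h' => (h h').elim, fun _ => ⟨by simpa using a2, by simpa using b2⟩⟩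

/-- `p` lies on a circle whose centre has coordinates in `F`. -/
def On (F : Subfield ℂ) (x : ι → P) (p : P) : Prop := ∃ i, In F (x i) ∧ Un p (x i)

/-- a step of a walk, with a parity bit. -/
def Rl (F : Subfield ℂ) (x : ι → P) (u v : P × Bool) : Prop :=
  Un u.1 v.1 ∧ On F x u.1 ∧ On F x v.1 ∧ v.2 = !u.2

theorem Rl.symm {u v : P × Bool} (h : Rl F x u v) : Rl F x v u :=
  ⟨h.1.symm, h.2.2.1, h.2.1, by simp [h.2.2.2]⟩

theorem rev {V : Type} {r : V → V → Prop} (hr : ∀ a b, r a b → r b a) {u v : V}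
    (h : ReflTransGen r u v) : ReflTransGen r v u := by
  induction h with
  | refl => exact .refl
  | tail _ h ih => exact .head (hr _ _ h) ih

theorem walk {π : O} (hπ : residue O π = 0)
    (hO : ∀ i, In F (x i) → ∃ a b : O, zz (x i) = π * a ∧ ww (x i) = π * b) {u v : P × Bool}
    (h : ReflTransGen (Rl F x) u v) (h1 : zz u.1 ∈ O) (h2 : ww u.1 ∈ O) :
    zz v.1 ∈ O ∧ ww v.1 ∈ O ∧ ∃ t : O,
      (if v.2 then -1 else 1) * zz v.1 ^ 3 - (if u.2 then -1 else 1) * zz u.1 ^ 3 = π * t := by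
  induction h with
  | refl => exact ⟨h1, h2, 0, by simp⟩
  | @tail v r _ h ih =>
    obtain ⟨k1, k2, t, ht⟩ := ih
    obtain ⟨h3, ⟨i, hi, h4⟩, ⟨j, hj, h5⟩, h6⟩ := h
    obtain ⟨a, b, ha, hb⟩ := hO i hi
    obtain ⟨a', b', ha', hb'⟩ := hO j hj
    rw [Un, ha, hb] at h4
    rw [Un, ha', hb'] at h5
    obtain ⟨k3, k4, t', ht'⟩ := step hπ k1 k2 h4 h5 h3
    refine ⟨k3, k4, ?_⟩
    rw [h6]
    cases hv : v.2
    · rw [hv] at ht
      exact ⟨t - t', by push_cast; simp at ht ⊢; linear_combination ht - ht'⟩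
    · rw [hv] at ht
      exact ⟨t + t', by push_cast; simp at ht ⊢; linear_combination ht + ht'⟩

theorem walk_odd {π : O} (hπ : residue O π = 0)
    (hO : ∀ i, In F (x i) → ∃ a b : O, zz (x i) = π * a ∧ ww (x i) = π * b) {p q : P}
    (h : ReflTransGen (Rl F x) (p, false) (q, true))
    (h1 : (zz p ∈ O ∧ ww p ∈ O) ∨ (zz q ∈ O ∧ ww q ∈ O)) :
    zz p ∈ O ∧ ww p ∈ O ∧ zz q ∈ O ∧ ww q ∈ O ∧ ∃ t : O, zz p ^ 3 + zz q ^ 3 = π * t := by
  have h2 : zz p ∈ O ∧ ww p ∈ O := h1.elim id fun h1 =>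
    have := walk hπ hO (rev (fun _ _ => Rl.symm) h) h1.1 h1.2
    ⟨this.1, this.2.1⟩
  obtain ⟨h3, h4, t, ht⟩ := walk hπ hO h h2.1 h2.2
  exact ⟨h2.1, h2.2, h3, h4, -t, by push_cast; simp at ht; linear_combination -ht⟩

theorem Tr.ne_zero {k : Type} [Field k] {S : Subring k} {E : k} (h : Tr S E) : E ≠ 0 := fun h0 =>
  have z := S.zero_mem
  one_ne_zero (h 0 1 0 0 0 0 0 z S.one_mem z z z z z (by simp [h0])).2.1

theorem no_odd (hx : AlgebraicIndependent ℚ fun j : ι × Fin 2 => x j.1 j.2) (hF : AC F) {p : P}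
    (h1 : ¬ In F p) (h2 : On F x p) : ¬ ReflTransGen (Rl F x) (p, false) (p, true) := fun h => by
  obtain ⟨i, hi, h3⟩ := h2
  obtain ⟨O, E, π, hE, hg, hπ, -, -, h6, hO⟩ := exists_place hx hF hi fun h => h1 (hi.of_un h3 h)
  obtain ⟨a, b, ha, hb, -⟩ := hO i hi
  have h4 : zz p = (E + π * a : O) := by push_cast; rw [hE, ha]; ring
  have h5 : ww p - ww (x i) ∈ O := mem_of_mul E 1 hg.ne_zero (by rw [hE]; exact h3)
  obtain ⟨-, -, -, -, t, ht⟩ := walk_odd hπ (fun i hi => by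
    obtain ⟨a, b, ha, hb, -⟩ := hO i hi
    exact ⟨a, b, ha, hb⟩) h (Or.inl ⟨h4 ▸ (E + π * a).2, by
      simpa using add_mem h5 (hb ▸ (π * b).2 : ww (x i) ∈ O)⟩)
  rw [h4] at ht
  have r := res_eq (a := (E + π * a) ^ 3 + (E + π * a) ^ 3) (b := π * t) ht
  simp only [map_mul, map_add, map_pow, hπ, zero_mul, add_zero] at r
  exact mul_ne_zero (two_three h6).1 (pow_ne_zero 3 hg.ne_zero) (by linear_combination r)

theorem no_apex_ne (hx : AlgebraicIndependent ℚ fun j : ι × Fin 2 => x j.1 j.2) (hF : AC F)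
    {p p' q s : P} {i i' : ι} (hi : In F (x i)) (hi' : In F (x i')) (hne : i ≠ i')
    (h1 : Un p (x i)) (h2 : Un p' (x i')) (hp : ¬ In F p) (hs : In F s) (h3 : Un q p)
    (h4 : Un q p') (h5 : Un q s) : ¬ ReflTransGen (Rl F x) (p, false) (p', true) := fun h => by
  obtain ⟨O, E, π, hE, hg, hπ, hπ0, hπF, h6, hO⟩ :=
    exists_place hx hF hi' fun h => hp (hi.of_un h1 h)
  obtain ⟨a, b, ha, hb, -, hab⟩ := hO i hi
  obtain ⟨a', b', ha', hb', hab', -⟩ := hO i' hi'
  have h7 : zz p = (E + π * a : O) := by push_cast; rw [hE, ha]; ring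
  have h8 : ww p - ww (x i) ∈ O := mem_of_mul E 1 hg.ne_zero (by rw [hE]; exact h1)
  obtain ⟨-, k2, k3, k4, t, ht⟩ := walk_odd hπ (fun i hi => by
    obtain ⟨a, b, ha, hb, -⟩ := hO i hi
    exact ⟨a, b, ha, hb⟩) h (Or.inl ⟨h7 ▸ (E + π * a).2, by
      simpa using add_mem h8 (hb ▸ (π * b).2 : ww (x i) ∈ O)⟩)
  unfold Un at h1 h2 h3 h4 h5
  lift ww p to O using k2 with W hW
  lift zz p' to O using k3 with Z' hZ'
  lift ww p' to O using k4 with W' hW'
  rw [h7] at ht h3
  rw [hb, ← hE] at h1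
  rw [ha', hb'] at h2
  have r0 := res_eq (a := (E + π * a) ^ 3 + Z' ^ 3) (b := π * t) ht
  have r1 := res_eq (a := E * (W - π * b)) (b := 1) h1
  have r2 := res_eq (a := (Z' - π * a') * (W' - π * b')) (b := 1) h2
  simp only [map_mul, map_add, map_sub, map_pow, hπ, zero_mul, add_zero, sub_zero, map_one]
    at r0 r1 r2
  have n := mul_ne_zero (two_three h6).1 (pow_ne_zero 3 hg.ne_zero)
  have n1 : residue O E ≠ residue O Z' := fun h => n (by rw [← h] at r0; linear_combination r0)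
  have hZ : zz q ∈ O := fin_of_two h3 h4 (E + π * a).2 Z'.2 fun h => n1 (by
    have := (res_zero (W - W')).2 h
    rw [map_sub] at this
    linear_combination residue O Z' * r1 - residue O E * r2 - residue O E * residue O Z' * this)
  have hW : ww q ∈ O := fin_of_two ((mul_comm _ _).trans h3) ((mul_comm _ _).trans h4) W.2 W'.2
    fun h => n1 (by simpa [hπ, sub_eq_zero] using (res_zero (E + π * a - Z')).2 h)
  lift zz q to O using hZ with A hA
  lift ww q to O using hW with B hB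
  have m : ∀ (c c' : O) (z z' : ℂ), z ∈ F → z' ∈ F → z = π * c → z' = π * c' →
      ((c' - c : O) : ℂ) ∈ F := fun c c' z z' hz hz' h h' => by
    convert div_mem (sub_mem hz' hz) hπF using 1
    rw [h, h']
    push_cast
    field_simp
  refine kne (e := E) (ε := W - π * b) (e' := Z' - π * a') (ε' := W' - π * b') (A := A - π * a)
    (B := B - π * b) (t := t - a * ((E + π * a) ^ 2 + (E + π * a) * E + E ^ 2) -
      a' * (Z' ^ 2 + Z' * (Z' - π * a') + (Z' - π * a') ^ 2)) hF.qc h6 hg hπ hπ0 hπF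
    (m a a' _ _ hi.1 hi'.1 ha ha') (m b b' _ _ hi.2 hi'.2 hb hb')
    (by simp [(hab hne).1, (hab' trivial).1]) (by simp [(hab hne).2, (hab' trivial).2])
    (Subtype.ext h1) (Subtype.ext h2) (Subtype.ext ?_) (Subtype.ext ?_) (Subtype.ext ?_)
    (sub_mem hs.1 hi.1) (sub_mem hs.2 hi.2) ?_
  · push_cast at ht ⊢
    linear_combination ht
  · push_cast at h3 ⊢
    linear_combination h3
  · push_cast
    linear_combination h4
  · rw [ha, hb]
    push_cast
    linear_combination h5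

theorem no_apex_eq (hx : AlgebraicIndependent ℚ fun j : ι × Fin 2 => x j.1 j.2) (hF : AC F)
    {p p' q s : P} {i : ι} (hi : In F (x i)) (h1 : Un p (x i)) (h2 : Un p' (x i))
    (hp : ¬ In F p) (hq : ¬ In F q) (hs : In F s) (hs' : On F x s) (h3 : Un q p)
    (h4 : Un q p') (h5 : Un q s) : ¬ ReflTransGen (Rl F x) (p, false) (p', true) := fun h => by
  have hne : zz p - zz p' ≠ 0 := fun h' => no_odd hx hF hp ⟨i, hi, h1⟩ (by
    rwa [← zz_inj (sub_eq_zero.1 h')] at h)
  obtain ⟨j, hj, h7⟩ := hs'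
  obtain ⟨O, g, π, hE, hg, hπ, -, -, -, hO⟩ := exists_place hx hF hi fun h => hq (hs.of_un h5 h)
  obtain ⟨a, b, ha, hb, -⟩ := hO i hi
  obtain ⟨a', b', ha', hb', -⟩ := hO j hj
  have hw := walk_odd hπ (fun i hi => by
    obtain ⟨a, b, ha, hb, -⟩ := hO i hi
    exact ⟨a, b, ha, hb⟩) h
  unfold Un at h1 h2 h3 h4 h5 h7
  have hB : ww q - ww (x i) ≠ 0 := fun h' => hq (ww_inj (sub_eq_zero.1 h') ▸ hi)
  have e1 : (zz p - zz (x i)) + (zz p' - zz (x i)) = zz q - zz (x i) := by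
    refine mul_left_cancel₀ hB (mul_left_cancel₀ hne ?_)
    linear_combination -(zz p - zz (x i)) * h3 + (zz p' - zz (x i)) * h4 - (zz q - zz p) * h1
      + (zz q - zz p') * h2
  have hA : zz q - zz (x i) ≠ 0 := fun h' => hq (zz_inj (sub_eq_zero.1 h') ▸ hi)
  have e2 : (ww p - ww (x i)) + (ww p' - ww (x i)) = ww q - ww (x i) := by
    refine mul_left_cancel₀ hA (mul_left_cancel₀ (fun h' : ww p - ww p' = 0 => hne (by
      rw [ww_inj (sub_eq_zero.1 h'), sub_self])) ?_)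
    linear_combination -(ww p - ww (x i)) * h3 + (ww p' - ww (x i)) * h4 - (ww q - ww p) * h1
      + (ww q - ww p') * h2
  obtain ⟨γ, hγ⟩ : ∃ γ : O, (γ : ℂ) = ww q - ww s :=
    ⟨⟨_, mem_of_mul g 1 hg.ne_zero (by rw [hE]; exact h5)⟩, rfl⟩
  rw [← hE, ← hγ] at h5
  have r5 := res_eq (a := g * γ) (b := 1) h5
  simp only [map_mul, map_one] at r5
  have z := (kF F O).zero_mem
  have m1 : zz (x i) ∈ O := ha ▸ (π * a).2
  have m2 : ww (x i) ∈ O := hb ▸ (π * b).2
  have ho : (zz p - zz (x i) ∈ O ∧ ww p - ww (x i) ∈ O) ∨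
      (zz p' - zz (x i) ∈ O ∧ ww p' - ww (x i) ∈ O) →
      (zz p - zz (x i)) ^ 3 + (zz p' - zz (x i)) ^ 3 ∈ O.nonunits ∧
      (ww p - ww (x i)) ^ 3 + (ww p' - ww (x i)) ^ 3 ∈ O.nonunits := fun h' => by
    obtain ⟨k1, k2, k3, k4, t, ht⟩ := hw (h'.imp
      (fun h' => ⟨by simpa using add_mem h'.1 m1, by simpa using add_mem h'.2 m2⟩)
      fun h' => ⟨by simpa using add_mem h'.1 m1, by simpa using add_mem h'.2 m2⟩)
    lift zz p to O using k1 with Z
    lift ww p to O using k2 with W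
    lift zz p' to O using k3 with Z'
    lift ww p' to O using k4 with W'
    rw [ha, hb] at h1 h2 ⊢
    have r0 := res_eq (a := Z ^ 3 + Z' ^ 3) (b := π * t) ht
    have r1 := res_eq (a := (Z - π * a) * (W - π * b)) (b := 1) h1
    have r2 := res_eq (a := (Z' - π * a) * (W' - π * b)) (b := 1) h2
    simp only [map_mul, map_add, map_sub, map_pow, hπ, zero_mul, sub_zero, map_one] at r0 r1 r2
    refine ⟨(res_zero ((Z - π * a) ^ 3 + (Z' - π * a) ^ 3)).1 ?_,
      (res_zero ((W - π * b) ^ 3 + (W' - π * b) ^ 3)).1 ?_⟩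
    · simpa [hπ] using r0
    · simp only [map_mul, map_add, map_sub, map_pow, hπ, zero_mul, sub_zero]
      linear_combination (residue O W * residue O W') ^ 3 * r0 - residue O W' ^ 3 *
        ((residue O Z * residue O W) ^ 2 + residue O Z * residue O W + 1) * r1 - residue O W ^ 3 *
        ((residue O Z' * residue O W') ^ 2 + residue O Z' * residue O W' + 1) * r2
  have hd : residue O (π * (a' - a)) = 0 := by simp [hπ]
  have hD : residue O (π * (b' - b)) = 0 := by simp [hπ]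
  rcases O.mem_or_inv_mem (zz s - zz (x j)) with hu | hu
  · refine keq (u := ⟨_, hu⟩) (g := g) (fun c hc h' => one_ne_zero (hg (c ^ 3) 0 0 1 0 0 0
      (pow_mem hc 3) z z (one_mem _) z z z (by linear_combination h')).2.2.2.1)
      (sub_mem hs.1 hj.1) hd hD h1 h2 h7 h5 ?_ ?_ fun h' => (ho h').1
    · push_cast
      linear_combination e1 - ha + ha' - hE
    · push_cast
      linear_combination e2 - hb + hb' - hγ
  · rw [← eq_inv_of_mul_eq_one_right h7] at hu
    refine keq (u := ⟨_, hu⟩) (g := γ) (γ := g) (fun c hc h' => one_ne_zero (hg 1 0 0 (c ^ 3) 0 0 0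
      (one_mem _) z z (pow_mem hc 3) z z z (by
        linear_combination residue O g ^ 3 * h' - ((residue O g * residue O γ) ^ 2 +
          residue O g * residue O γ + 1) * r5)).1)
      (sub_mem hs.2 hj.2) hD hd ((mul_comm _ _).trans h1) ((mul_comm _ _).trans h2)
      ((mul_comm _ _).trans h7) ((mul_comm _ _).trans h5) ?_ ?_
      fun h' => (ho (h'.imp And.symm And.symm)).2
    · push_cast
      linear_combination e2 - hb + hb' - hγ
    · push_cast
      linear_combination e1 - ha + ha' - hE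

theorem no_apex (hx : AlgebraicIndependent ℚ fun j : ι × Fin 2 => x j.1 j.2) (hF : AC F)
    {p p' q s : P} (h1 : On F x p) (h2 : On F x p') (hp : ¬ In F p) (hq : ¬ In F q) (hs : In F s)
    (hs' : On F x s) (h3 : Un q p) (h4 : Un q p') (h5 : Un q s) :
    ¬ ReflTransGen (Rl F x) (p, false) (p', true) := by
  obtain ⟨i, hi, h1⟩ := h1
  obtain ⟨i', hi', h2⟩ := h2
  by_cases h : i = i'
  · subst h
    exact no_apex_eq hx hF hi h1 h2 hp hq hs hs' h3 h4 h5
  · exact no_apex_ne hx hF hi hi' h h1 h2 hp hs h3 h4 h5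

end Pool.Agent.MP_5c7750_co

end

-- part MP_5c7750_co.Lev
section

/-! The rank filtration of the union of circles and the colouring built along it. -/

namespace Pool.Agent.MP_5c7750_co

open Complex Relation Set

/-- algebraic closure in the complex numbers of the field generated by `S`. -/
noncomputable def cl (S : Set ℂ) : Subfield ℂ :=
  (algebraicClosure (IntermediateField.adjoin ℚ S) ℂ).toSubfield

theorem mem_cl {S : Set ℂ} {t : ℂ} :
    t ∈ cl S ↔ t ∈ (AlgebraicIndependent.matroid ℚ ℂ).closure S := by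
  rw [AlgebraicIndependent.matroid_closure_eq, SetLike.mem_coe, Subalgebra.mem_algebraicClosure,
    ← IntermediateField.isAlgebraic_adjoin_iff]
  exact mem_algebraicClosure_iff

theorem cl_ac (S : Set ℂ) : AC (cl S) := fun t ht =>
  have k : ∀ (K : Type) [Field K] [Algebra K ℂ], IsAlgebraic (algebraicClosure K ℂ) t →
    IsAlgebraic K t := fun K _ _ h => h.restrictScalars K
  mem_algebraicClosure_iff.2 (k _ ht)

theorem sub_cl {S : Set ℂ} {t : ℂ} (h : t ∈ S) : t ∈ cl S :=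
  mem_cl.2 (Matroid.subset_closure _ _ (by simp) h)

theorem cl_le {S T : Set ℂ} (h : ∀ t ∈ S, t ∈ cl T) : cl S ≤ cl T := fun _ ht =>
  mem_cl.2 (Matroid.closure_subset_closure_of_subset_closure (fun t ht => mem_cl.1 (h t ht))
    (mem_cl.1 ht))

theorem cl_mono {S T : Set ℂ} (h : S ⊆ T) : cl S ≤ cl T := cl_le fun _ ht => sub_cl (h ht)

theorem cl_countable {S : Set ℂ} (h : S.Countable) : (cl S : Set ℂ).Countable := by
  have : Countable (IntermediateField.adjoin ℚ S) := by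
    rw [← Cardinal.mk_le_aleph0_iff]
    refine (IntermediateField.cardinalMk_adjoin_le ℚ S).trans ?_
    simp [h]
  exact (Algebraic.countable (IntermediateField.adjoin ℚ S) ℂ).mono fun t ht =>
    mem_algebraicClosure_iff.1 ht

theorem In.mono {F F' : Subfield ℂ} {p : P} (h : In F p) (h' : F ≤ F') : In F' p :=
  ⟨h' h.1, h' h.2⟩

theorem not_un (p : P) : ¬ Un p p := by simp [Un]

variable {ι : Type} {x : ι → P}

/-- a transcendence basis of the complex numbers, cut into blocks, one block for each centre. -/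
structure Blocks (x : ι → P) (G : ι ⊕ ℂ → Set ℂ) : Prop where
  span : ∀ t, t ∈ cl (⋃ β, G β)
  cen : ∀ i, In (cl (G (.inl i))) (x i)
  free : ∀ i s, ¬ In (cl (insert s (⋃ β ∈ {β | β ≠ .inl i}, G β))) (x i)
  cnt : ∀ β, (G β).Countable

theorem exists_blocks (hx : AlgebraicIndependent ℚ fun j : ι × Fin 2 => x j.1 j.2) :
    ∃ G, Blocks x G := by
  have hx' := hx.map' (f := IsScalarTower.toAlgHom ℚ ℝ ℂ) ofReal_injective
  let a : ι × Fin 2 → ℂ := fun j => (x j.1 j.2 : ℝ)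
  change AlgebraicIndependent ℚ a at hx'
  obtain ⟨B, hB, hB'⟩ := (AlgebraicIndependent.matroid_indep_iff.2
    hx'.to_subtype_range).exists_isBase_superset
  have hI : ∀ S, I ∈ cl S := fun S => (cl_ac S).qc _ 0 1 (zero_mem _) (one_mem _) (by simp)
  refine ⟨Sum.elim (fun i => {a (i, 0), a (i, 1)}) fun t => {t} ∩ (B \ range a), fun t => ?_,
    fun i => ?_, fun i s h => ?_, fun β => ?_⟩
  · refine cl_mono (S := B) (fun b hb => ?_) (mem_cl.2 (by simp [hB.closure_eq]))
    by_cases h : b ∈ range a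
    · obtain ⟨⟨i, k⟩, rfl⟩ := h
      exact mem_iUnion.2 ⟨.inl i, by fin_cases k <;> simp⟩
    · exact mem_iUnion.2 ⟨.inr b, rfl, hb, h⟩
  · have h0 : a (i, 0) ∈ cl {a (i, 0), a (i, 1)} := sub_cl (by simp)
    have h1 : a (i, 1) ∈ cl {a (i, 0), a (i, 1)} := sub_cl (by simp)
    exact ⟨add_mem h0 (mul_mem h1 (hI _)), sub_mem h0 (mul_mem h1 (hI _))⟩
  · set S := ⋃ β ∈ {β | β ≠ Sum.inl i}, Sum.elim (fun i => {a (i, 0), a (i, 1)})
      (fun t => {t} ∩ (B \ range a)) β
    have hS : ∀ k, S ⊆ B \ {a (i, k)} := fun k t ht => by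
      obtain ⟨β, hβ, ht⟩ := mem_iUnion₂.1 ht
      rcases β with j | u
      · have hj : j ≠ i := fun h => hβ (h ▸ rfl)
        rcases ht with rfl | rfl
        · exact ⟨hB' ⟨_, rfl⟩, fun h => hj (congrArg Prod.fst (hx'.injective h))⟩
        · exact ⟨hB' ⟨_, rfl⟩, fun h => hj (congrArg Prod.fst (hx'.injective h))⟩
      · exact ⟨ht.2.1, fun h => ht.2.2 ⟨_, h.symm⟩⟩
    have k : ∀ k, a (i, k) ∉ cl (B \ {a (i, k)}) := fun k h =>
      hB.indep.notMem_closure_sdiff_of_mem (hB' ⟨_, rfl⟩) (mem_cl.1 h)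
    have h0 : a (i, 0) ∈ cl (insert s S) := by
      convert div_mem (add_mem h.1 h.2) (ofNat_mem _ 2) using 1
      simp [zz, ww, a]
    have h1 : a (i, 1) ∈ cl (insert s S) := by
      convert div_mem (sub_mem h.1 h.2) (mul_mem (ofNat_mem _ 2) (hI _)) using 1
      simp only [zz, ww, a]
      field_simp
      ring
    have h2 := mem_cl.2 (Matroid.mem_closure_insert
      (fun h => k 1 (cl_mono (hS 1) (mem_cl.2 h))) (mem_cl.1 h1))
    have h3 : insert (a (i, 1)) S ⊆ B \ {a (i, 0)} := insert_subset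
      ⟨hB' ⟨_, rfl⟩, fun h => by simpa using hx'.injective h⟩ (hS 0)
    refine k 0 (cl_le (fun t ht => ?_) h0)
    rcases ht with rfl | ht
    · exact cl_mono h3 h2
    · exact sub_cl (hS 0 ht)
  · rcases β with i | t
    · exact (countable_singleton _).insert _
    · exact (countable_singleton t).mono inter_subset_left

/-- the field of a set of blocks. -/
noncomputable def KK (G : ι ⊕ ℂ → Set ℂ) (A : Set (ι ⊕ ℂ)) : Subfield ℂ := cl (⋃ β ∈ A, G β)

variable {G : ι ⊕ ℂ → Set ℂ}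

theorem KK_mono {A A' : Set (ι ⊕ ℂ)} (h : A ⊆ A') : KK G A ≤ KK G A' :=
  cl_mono (biUnion_subset_biUnion_left h)

theorem KK_fin {A : Set (ι ⊕ ℂ)} {p : P} (h : In (KK G A) p) :
    ∃ J ⊆ A, J.Finite ∧ In (KK G J) p := by
  have k : ∀ t ∈ KK G A, ∃ J ⊆ A, J.Finite ∧ t ∈ KK G J := fun t ht => by
    obtain ⟨T, h1, h2, -, h3⟩ := Matroid.exists_mem_finite_closure_of_mem_closure (mem_cl.1 ht)
    choose! f hf hf' using fun t (ht : t ∈ T) => mem_iUnion₂.1 (h1 ht)
    exact ⟨f '' T, image_subset_iff.2 hf, h2.image f, cl_mono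
      (fun t ht => mem_iUnion₂.2 ⟨f t, mem_image_of_mem f ht, hf' t ht⟩) (mem_cl.2 h3)⟩
  obtain ⟨J, h1, h2, h3⟩ := k _ h.1
  obtain ⟨J', h1', h2', h3'⟩ := k _ h.2
  exact ⟨J ∪ J', union_subset h1 h1', h2.union h2', KK_mono subset_union_left h3,
    KK_mono subset_union_right h3'⟩

theorem Blocks.top (hG : Blocks x G) (p : P) : In (KK G univ) p := by
  simpa [In, KK] using ⟨hG.span _, hG.span _⟩

theorem Blocks.mem (hG : Blocks x G) {A : Set (ι ⊕ ℂ)} {i : ι} (h : .inl i ∈ A) :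
    In (KK G A) (x i) := (hG.cen i).mono (cl_mono (subset_biUnion_of_mem (u := G) h))

theorem Blocks.flat (hG : Blocks x G) {A : Set (ι ⊕ ℂ)} {i : ι} {s : ℂ}
    (h : In (cl (insert s (⋃ β ∈ A, G β))) (x i)) : .inl i ∈ A := by
  by_contra h'
  exact hG.free i s (h.mono (cl_mono (insert_subset_insert (biUnion_subset_biUnion_left
    fun β hβ h => h' (h ▸ hβ)))))

theorem In.ins {S : Set ℂ} {p q : P} (hp : In (cl S) p) (h : Un q p) :
    In (cl (insert (zz q) S)) q :=
  have := hp.mono (cl_mono (subset_insert (zz q) S))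
  this.of_un h (sub_mem (sub_cl (mem_insert _ _)) this.1)

theorem Blocks.of_un (hG : Blocks x G) {A : Set (ι ⊕ ℂ)} {i : ι} {p : P} (h : In (KK G A) p)
    (h' : Un p (x i)) : .inl i ∈ A := hG.flat (In.ins h h'.symm)

theorem Blocks.not_un (hG : Blocks x G) (i j : ι) : ¬ Un (x i) (x j) := fun h => by
  have := hG.of_un (hG.mem (mem_singleton _)) h
  rw [Sum.inl.inj this] at h
  exact Pool.Agent.MP_5c7750_co.not_un _ h

/-- the double cover of a relation. -/
def Dc {V : Type} (R : V → V → Prop) (u v : V × Bool) : Prop := R u.1 v.1 ∧ v.2 = !u.2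

theorem Dc.symm {V : Type} {R : V → V → Prop} (hR : ∀ a b, R a b → R b a) (u v : V × Bool)
    (h : Dc R u v) : Dc R v u := ⟨hR _ _ h.1, by simp [h.2]⟩

theorem exists_two {V : Type} {R : V → V → Prop} (hR : ∀ a b, R a b → R b a)
    (h : ∀ u, ¬ ReflTransGen (Dc R) (u, false) (u, true)) :
    ∃ b : V → Bool, ∀ p q, R p q → b p ≠ b q := by
  classical
  let C : V → Set V := fun p => {r | ∃ s, ReflTransGen (Dc R) (r, false) (p, s)}
  have h1 : ∀ p, (C p).Nonempty := fun p => ⟨p, false, .refl⟩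
  have h2 : ∀ p q, R p q → C p ⊆ C q := fun p q hpq r ⟨s, hs⟩ => ⟨!s, hs.tail ⟨hpq, rfl⟩⟩
  refine ⟨fun p => decide (ReflTransGen (Dc R) ((h1 p).some, false) (p, true)),
    fun p q hpq h3 => ?_⟩
  have h4 : (h1 q).some = (h1 p).some := by
    congr 1
    exact (h2 _ _ (hR _ _ hpq)).antisymm (h2 _ _ hpq)
  rw [decide_eq_decide, h4] at h3
  obtain ⟨s, hs⟩ := (h1 p).some_mem
  cases s
  · exact h p ((rev (Dc.symm hR) hs).trans (h3.2 (hs.tail ⟨hpq, rfl⟩)))
  · exact h q ((rev (Dc.symm hR) (hs.tail (c := (q, false)) ⟨hpq, rfl⟩)).trans (h3.1 hs))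

theorem exists_col {V Λ : Type} [LinearOrder Λ] [WellFoundedLT Λ] (adj : V → V → Prop)
    (lev : V → Λ) (A : V → Prop) (f g : V → Fin 4) :
    ∃ c : V → Fin 4, ∀ p, (c p = f p ∧ A p ∧ ∀ q, lev q < lev p → adj p q → c q ≠ f p) ∨
      (c p = g p ∧ (A p → ∃ q, lev q < lev p ∧ adj p q ∧ c q = f p)) := by
  classical
  let w : WellFounded fun q p => lev q < lev p := InvImage.wf lev wellFounded_lt
  let c : V → Fin 4 := w.fix fun p c =>
    if A p ∧ ∀ q (h : lev q < lev p), adj p q → c q h ≠ f p then f p else g p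
  refine ⟨c, fun p => ?_⟩
  have h : c p = if A p ∧ ∀ q, lev q < lev p → adj p q → c q ≠ f p then f p else g p :=
    w.fix_eq _ p
  split_ifs at h with h'
  · exact Or.inl ⟨h, h'⟩
  · push Not at h'
    exact Or.inr ⟨h, h'⟩

/-- `p` lies on one of the circles. -/
def InW (x : ι → P) (p : P) : Prop := ∃ i, Un p (x i)

theorem exists_lev (hx : AlgebraicIndependent ℚ fun j : ι × Fin 2 => x j.1 j.2) (hG : Blocks x G)
    {Λ : Type} [LinearOrder Λ] [WellFoundedLT Λ] {key : ι ⊕ ℂ → Λ} (hk : key.Injective) :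
    ∃ (lev : P → Λ) (A : P → Prop) (b : P → Bool),
      (∀ p, In (KK G {β | key β ≤ lev p}) p) ∧
      (∀ p l, InW x p → In (KK G {β | key β < l}) p → lev p < l) ∧
      (∀ p i, Un p (x i) → (A p → key (.inl i) = lev p) ∧ (key (.inl i) < lev p → ¬ A p)) ∧
      (∀ p q, InW x p → InW x q → Un p q → lev q < lev p →
        A p ∧ ∀ q', Un p q' → lev q' < lev p → q' = q) ∧
      ∀ p q, InW x p → InW x q → Un p q → lev p = lev q →
        (A p → ∃ s, lev s < lev p ∧ InW x s ∧ Un p s) →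
        (A q → ∃ s, lev s < lev q ∧ InW x s ∧ Un q s) → b p ≠ b q := by
  have h0 : ∀ (p : P) (T : Set (ι ⊕ ℂ)), In (KK G T) p → T.Nonempty →
      ∃ β ∈ T, In (KK G {γ | key γ ≤ key β}) p := fun p T h ⟨β, hβ⟩ => by
    obtain ⟨J, h1, h2, h3⟩ := KK_fin h
    obtain ⟨γ, h4, h5⟩ := exists_max_image (insert β J) key (h2.insert β) (insert_nonempty _ _)
    exact ⟨γ, insert_subset hβ h1 h4, h3.mono (KK_mono fun a ha => h5 a (mem_insert_of_mem _ ha))⟩
  have h1 : ∀ p : P, {l | In (KK G {β | key β ≤ l}) p}.Nonempty := fun p =>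
    have ⟨β, _, h⟩ := h0 p _ (hG.top p) ⟨.inr 0, trivial⟩
    ⟨_, h⟩
  choose lev l1 l1' using fun p => wellFounded_lt.has_min _ (h1 p)
  let F : Λ → Subfield ℂ := fun l => KK G {β | key β < l}
  have hF : ∀ l, AC (F l) := fun l => cl_ac _
  have l2 : ∀ p l, InW x p → In (F l) p → lev p < l := fun p l ⟨i, hi⟩ h =>
    have ⟨β, h2, h3⟩ := h0 p _ h ⟨_, hG.of_un h hi⟩
    (not_lt.1 (l1' p _ h3)).trans_lt h2
  have l3 : ∀ p l, lev p < l → In (F l) p := fun p l h =>
    (l1 p).mono (KK_mono fun β hβ => lt_of_le_of_lt hβ h)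
  have l4 : ∀ p, InW x p → ¬ In (F (lev p)) p := fun p hp h => (l2 p _ hp h).false
  let A : P → Prop := fun p => ¬ On (F (lev p)) x p
  have a1 : ∀ p i, Un p (x i) → A p → key (.inl i) = lev p := fun p i h hA =>
    (hG.of_un (l1 p) h).antisymm (not_lt.1 fun h' => hA ⟨i, hG.mem h', h⟩)
  let C : P → Prop := fun p => InW x p ∧ (A p → ∃ s, lev s < lev p ∧ InW x s ∧ Un p s)
  have a2 : ∀ p l, lev p = l → ¬ A p → On (F l) x p := fun p l h h' => by
    rw [← h]; exact not_not.1 h'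
  let R : P → P → Prop := fun p q => C p ∧ C q ∧ Un p q ∧ lev p = lev q
  have hR : ∀ p q, R p q → R q p := fun p q h => ⟨h.2.1, h.1, h.2.2.1.symm, h.2.2.2.symm⟩
  have c1 : ∀ p, C p → ∃ c, In (F (lev p)) c ∧ Un p c := fun p hp => by
    by_cases hA : A p
    · obtain ⟨s, h1, -, h2⟩ := hp.2 hA
      exact ⟨s, l3 _ _ h1, h2⟩
    · obtain ⟨i, h⟩ := not_not.1 hA
      exact ⟨_, h⟩
  have star : ∀ q, C q → A q → ¬ ReflTransGen (Dc R) (q, false) (q, true) := fun q hq hA h => by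
    let L := cl (insert (zz q) (⋃ β ∈ {β | key β < lev q}, G β))
    have hL : F (lev q) ≤ L := cl_mono (subset_insert _ _)
    obtain ⟨c, hc, hc'⟩ := c1 q hq
    have hq' : In L q := In.ins hc hc'
    have o3 : ∀ r, InW x r → A r → lev r = lev q → In L r → r = q := fun r ⟨i, hi⟩ hr h1 h2 => by
      by_contra hne
      obtain ⟨j, hj⟩ := hq.1
      have h3 := a1 _ _ hi hr
      obtain rfl := Sum.inl.inj (hk (h3.trans (h1.trans (a1 _ _ hj hA).symm)))
      have h4 := hG.flat (h2.of_two (cl_ac _) hq' hne hi.symm hj.symm)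
      exact (h3.trans h1).not_lt h4
    have key : ∀ v, ReflTransGen (Dc R) (q, false) v → In L v.1 ∧ lev v.1 = lev q ∧
        (v = (q, false) ∨ ¬ A v.1 ∧ ∃ p, On (F (lev q)) x p ∧ Un q p ∧
          ReflTransGen (Rl (F (lev q)) x) (p, true) v) := fun v hv => by
      induction hv with
      | refl => exact ⟨hq', rfl, Or.inl rfl⟩
      | @tail v r _ h ih =>
        obtain ⟨⟨h1, h2, h3, h4⟩, h5⟩ := h
        obtain ⟨i1, i2, i3⟩ := ih
        have h6 := h4.symm.trans i2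
        obtain ⟨d, hd, hd'⟩ := c1 _ h2
        have h7 : In L r.1 := i1.of_two (cl_ac _) (hd.mono (by rw [h6]; exact hL))
          (fun h => l4 _ h1.1 (by rw [h4]; exact h ▸ hd)) h3.symm hd'
        refine ⟨h7, h6, ?_⟩
        by_cases h8 : A r.1
        · have h9 := o3 _ h2.1 h8 h6 h7
          rcases i3 with rfl | ⟨i3, p, i4, i5, i6⟩
          · exact (not_un q (h9 ▸ h3)).elim
          · refine Or.inl (Prod.ext h9 ?_)
            obtain ⟨v, t⟩ := v
            cases t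
            · obtain ⟨s, s1, ⟨i, s2⟩, s3⟩ := hq.2 hA
              have s4 := l3 _ _ s1
              exact (no_apex hx (hF _) (a2 _ _ i2 i3) i4 (by rw [← i2]; exact l4 _ h1.1) (l4 _ hq.1) s4
                ⟨i, hG.mem (hG.of_un s4 s2), s2⟩ (h9 ▸ h3.symm) i5 s3
                (rev (fun _ _ => Rl.symm) i6)).elim
            · exact h5
        · have h9 : On (F (lev q)) x r.1 := a2 _ _ h6 h8
          rcases i3 with rfl | ⟨i3, p, i4, i5, i6⟩
          · exact Or.inr ⟨h8, r.1, h9, h3, by rw [show true = r.2 from h5.symm]⟩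
          · exact Or.inr ⟨h8, p, i4, i5, i6.tail ⟨h3, a2 _ _ i2 i3, h9, h5⟩⟩
    rcases (key _ h).2.2 with h | h
    · simp at h
    · exact h.1 hA
  obtain ⟨b, hb⟩ := exists_two hR fun u h => by
    have hu : C u := by
      rcases h.cases_head with h | ⟨_, h, -⟩
      · simp at h
      · exact h.1.1
    have key : ∀ v, ReflTransGen (Dc R) (u, false) v → (¬ A v.1 ∧ lev v.1 = lev u ∧
        ReflTransGen (Rl (F (lev u)) x) (u, false) v) ∨
        ∃ w, C w.1 ∧ A w.1 ∧ ReflTransGen (Dc R) (u, false) w := fun v hv => by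
      induction hv with
      | refl =>
        by_cases hA : A u
        · exact Or.inr ⟨(u, false), hu, hA, .refl⟩
        · exact Or.inl ⟨hA, rfl, .refl⟩
      | @tail v r h0 h ih =>
        rcases ih with ⟨i1, i2, i3⟩ | ih
        · by_cases hA : A r.1
          · exact Or.inr ⟨r, h.1.2.1, hA, h0.tail h⟩
          · have h6 := h.1.2.2.2.symm.trans i2
            exact Or.inl ⟨hA, h6, i3.tail ⟨h.1.2.2.1, a2 _ _ i2 i1, a2 _ _ h6 hA, h.2⟩⟩
        · exact Or.inr ih
    rcases key _ h with ⟨h1, -, h2⟩ | ⟨⟨w, s⟩, h1, h2, h3⟩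
    · exact no_odd hx (hF _) (l4 _ hu.1) (not_not.1 h1) h2
    · have h4 := ((rev (Dc.symm hR) h3).trans h).trans (h3.lift (fun v => (v.1, !v.2))
        fun a b h => ⟨h.1, congrArg not h.2⟩)
      cases s
      · exact star w h1 h2 h4
      · exact star w h1 h2 (rev (Dc.symm hR) h4)
  refine ⟨lev, A, b, l1, l2, fun p i h => ⟨a1 p i h, fun h' hA => hA ⟨i, hG.mem h', h⟩⟩,
    fun p q hp ⟨j, hj⟩ h h' => ⟨fun ⟨i, hi, h1⟩ => l4 p hp ?_, fun q' h1 h2 => ?_⟩,
    fun p q hp hq h1 h2 h3 h4 => hb p q ⟨⟨hp, h3⟩, ⟨hq, h4⟩, h1, h2⟩⟩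
  · exact hi.of_two (hF _) (l3 _ _ h') (fun h => hG.not_un i j (h ▸ hj)) h1 h
  · by_contra hne
    exact l4 p hp ((l3 _ _ h2).of_two (hF _) (l3 _ _ h') hne h1 h)

theorem exists_pt {L : Subfield ℂ} (hL : (L : Set ℂ).Countable) {U : Set P} (hU : IsOpen U)
    {p c : P} (hp : p ∈ U) (h : Un p c) : ∃ q ∈ U, Un q c ∧ ¬ In L q := by
  let r := orthonormalBasisOneI.repr
  have h1 : ∀ z, zz (r z) = z := fun z => r.symm_apply_apply z
  have h2 : ∀ p, r (zz p) = p := fun p => zz_inj (h1 _)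
  have h3 : zz p ∈ range (circleMap (zz c) 1) := by
    rw [range_circleMap, Metric.mem_sphere, ← r.dist_map, h2, h2, un_iff.1 h, abs_one]
  obtain ⟨θ, hθ⟩ := h3
  obtain ⟨t, h4, h5⟩ := ((hL.preimage_circleMap (zz c) one_ne_zero).dense_compl ℝ).exists_mem_open
    (hU.preimage (r.continuous.comp (continuous_circleMap (zz c) 1)))
    ⟨θ, by simpa [hθ, h2] using hp⟩
  refine ⟨_, h5, un_iff.2 ?_, fun h => h4 (by simpa [h1] using h.1)⟩
  rw [← h2 c, Function.comp, r.dist_map, h1]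
  exact circleMap_mem_sphere (zz c) zero_le_one t

theorem core (hx : AlgebraicIndependent ℚ fun j : ι × Fin 2 => x j.1 j.2) (hh : P → Bool)
    (U : ℕ → Set P) (hU : ∀ n, IsOpen (U n)) (hU' : ∀ n, ∃ p ∈ U n, InW x p) (col : ℕ → Fin 4) :
    ∃ (c : P → Fin 4) (pt : ℕ → P), (∀ n, pt n ∈ U n ∧ InW x (pt n) ∧ c (pt n) = col n) ∧
      (∀ p q, InW x p → InW x q → Un p q → c p = c q → hh p = hh q ∧ (∀ n, p ≠ pt n) ∧
        (∀ n, q ≠ pt n) ∧ ∀ i j, Un p (x i) → Un q (x j) → i = j) ∧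
      ∀ p, c p = 3 → hh p = true ∨ ∃ n, col n = 3 := by
  classical
  obtain ⟨G, hG⟩ := exists_blocks hx
  choose p0 hp0 i hi using hU'
  choose q hq1 hq2 hq3 using fun n (J : {J : Set (ι ⊕ ℂ) // J.Finite}) =>
    exists_pt (L := KK G J) (cl_countable (J.2.countable.biUnion fun β _ => hG.cnt β)) (hU n)
      (hp0 n) (hi n)
  choose T _ hT1 hT2 using fun p => KK_fin (hG.top p)
  let K : ℕ → {J : Set (ι ⊕ ℂ) // J.Finite} := fun n => Nat.rec ⟨{.inl (i 0)}, finite_singleton _⟩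
    (fun n J => ⟨insert (.inl (i (n + 1))) (J ∪ T (q n J)), (J.2.union (hT1 _)).insert _⟩) n
  have k1 : Monotone fun n => (K n).1 := monotone_nat_of_le_succ fun n β h => Or.inr (Or.inl h)
  have k2 : ∀ n, .inl (i n) ∈ (K n).1 := fun n => by
    cases n
    · rfl
    · exact Or.inl rfl
  let g : ι ⊕ ℂ → ℕ∞ := fun β => if h : ∃ n, β ∈ (K n).1 then Nat.find h else ⊤
  have k3 : ∀ β (n : ℕ), g β ≤ n ↔ β ∈ (K n).1 := fun β n => by
    simp only [g]
    split_ifs with h
    · rw [Nat.cast_le]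
      exact ⟨fun h' => k1 h' (Nat.find_spec h), Nat.find_min' h⟩
    · simpa using fun h' => h ⟨n, h'⟩
  obtain ⟨_, _⟩ := exists_wellFoundedLT (ι ⊕ ℂ)
  obtain ⟨lev, A, b, l1, l2, l3, l4, l5⟩ := exists_lev hx hG (Λ := ℕ∞ ×ₗ (ι ⊕ ℂ))
    (key := fun β => toLex (g β, β)) fun β γ h => congrArg (fun v => (ofLex v).2) h
  let pt : ℕ → P := fun n => q n (K n)
  have k4 : ∀ n, ∀ β ∈ (K n).1, toLex (g β, β) < lev (pt n) := fun n β hβ => by
    refine Prod.Lex.lt_iff.2 (Or.inl (((k3 _ _).2 hβ).trans_lt (not_le.1 fun h => hq3 n (K n)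
      ((l1 _).mono (KK_mono fun γ hγ => (k3 _ _).1 (le_trans ?_ h))))))
    exact Prod.Lex.monotone_fst _ _ hγ
  have k5 : Function.Injective (lev ∘ pt) := StrictMono.injective fun n m h =>
    l2 _ _ ⟨_, hq2 n _⟩ ((hT2 _).mono (KK_mono fun β hβ =>
      k4 m β (k1 (Nat.succ_le_of_lt h) (Or.inr (Or.inr hβ)))))
  have k6 : ∀ n, ¬ A (pt n) := fun n => (l3 _ _ (hq2 n _)).2 (k4 n _ (k2 n))
  let π : ℕ∞ ×ₗ (ι ⊕ ℂ) → Equiv.Perm (Fin 4) := Function.extend (lev ∘ pt)
    (fun n => Equiv.swap (if b (pt n) then 1 else 0) (col n)) 1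
  obtain ⟨c, hc⟩ := exists_col (fun p q => InW x q ∧ Un p q) lev A
    (fun p => π (lev p) (if hh p then 3 else 2)) fun p => π (lev p) (if b p then 1 else 0)
  have k7 : ∀ u v : Bool, (if u then 3 else 2 : Fin 4) ≠ if v then 1 else 0 := by decide
  have k8 : ∀ p q, InW x p → InW x q → Un p q → lev q < lev p → c p ≠ c q := by
    intro p q hp hq h h' h1
    obtain ⟨h2, h3⟩ := l4 p q hp hq h h'
    rcases hc p with ⟨h4, -, h5⟩ | ⟨h4, h5⟩
    · exact h5 q h' ⟨hq, h⟩ (h1 ▸ h4)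
    · obtain ⟨r, h6, h7, h8⟩ := h5 h2
      rw [h3 r h7.2 h6, ← h1, h4] at h8
      exact k7 _ _ ((π _).injective h8).symm
  refine ⟨c, pt, fun n => ⟨hq1 n _, ⟨_, hq2 n _⟩, ?_⟩, fun p q hp hq h h1 => ?_, fun p h => ?_⟩
  · rcases hc (pt n) with h | h
    · exact (k6 n h.2.1).elim
    · rw [h.1, show π (lev (pt n)) = _ from k5.extend_apply _ _ n, Equiv.swap_apply_left]
  · have h2 : lev p = lev q := (not_lt.1 fun h' => k8 p q hp hq h h' h1).antisymm
      (not_lt.1 fun h' => k8 q p hq hp h.symm h' h1.symm)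
    rcases hc p with ⟨h3, h4, -⟩ | ⟨h3, h4⟩ <;> rcases hc q with ⟨h5, h6, -⟩ | ⟨h5, h6⟩ <;>
      rw [h3, h5, h2, (π _).injective.eq_iff] at h1
    · refine ⟨by revert h1; cases hh p <;> cases hh q <;> decide, fun n h => k6 n (h ▸ h4),
        fun n h => k6 n (h ▸ h6), fun i j h7 h8 => Sum.inl.inj (congrArg (fun v => (ofLex v).2)
          (((l3 _ _ h7).1 h4).trans (h2.trans ((l3 _ _ h8).1 h6).symm)))⟩
    · exact (k7 _ _ h1).elim
    · exact (k7 _ _ h1.symm).elim
    · refine (l5 p q hp hq h h2 (fun h => ?_) (fun h => ?_)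
        (by revert h1; cases b p <;> cases b q <;> decide)).elim
      · obtain ⟨s, h1, h2, -⟩ := h4 h
        exact ⟨s, h1, h2⟩
      · obtain ⟨s, h1, h2, -⟩ := h6 h
        exact ⟨s, h1, h2⟩
  · by_contra h1
    push Not at h1
    have h2 : π (lev p) 3 = 3 := by
      by_cases h3 : ∃ n, (lev ∘ pt) n = lev p
      · obtain ⟨n, h3⟩ := h3
        rw [← h3, show π ((lev ∘ pt) n) = _ from k5.extend_apply _ _ n]
        exact Equiv.swap_apply_of_ne_of_ne (k7 true _) (h1.2 n).symm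
      · rw [show π (lev p) = _ from Function.extend_apply' _ _ _ h3]
        rfl
    rcases hc p with ⟨h3, -⟩ | ⟨h3, -⟩ <;> rw [h3, ← h2, (π _).injective.eq_iff] at h
    · simp [h1.1] at h
    · exact k7 true _ h.symm

end Pool.Agent.MP_5c7750_co

end

-- part MP_5c7750_co.Main
section

/-! The two colouring theorems. -/

namespace Pool.Agent.MP_5c7750_co

open Complex Set TopologicalSpace

variable {ι : Type} {x : ι → P}

theorem core' (hx : AlgebraicIndependent ℚ fun j : ι × Fin 2 => x j.1 j.2) (hh : P → Bool)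
    (i0 : ι) (S : Set (Fin 4)) (h0 : 0 ∈ S) :
    ∃ (c : P → Fin 4) (T : Set P), (∀ p ∈ T, InW x p) ∧
      (∀ U, IsOpen U → (∃ p ∈ U, InW x p) → ∀ k ∈ S, ∃ p ∈ U, p ∈ T ∧ c p = k) ∧
      (∀ p q, InW x p → InW x q → Un p q → c p = c q → hh p = hh q ∧ p ∉ T ∧ q ∉ T ∧
        ∀ i j, Un p (x i) → Un q (x j) → i = j) ∧
      ∀ p, c p = 3 → hh p = true ∨ 3 ∈ S := by
  let B := {U ∈ countableBasis P | ∃ p ∈ U, InW x p}
  have : Countable B := ((countable_countableBasis P).mono (sep_subset _ _)).to_subtype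
  have h1 : ∀ U, IsOpen U → (∃ p ∈ U, InW x p) → ∃ V ∈ B, V ⊆ U := fun U hU ⟨p, h1, h2⟩ =>
    have ⟨V, h3, h4, h5⟩ := (isBasis_countableBasis P).exists_subset_of_mem_open h1 hU
    ⟨V, ⟨h3, p, h4, h2⟩, h5⟩
  obtain ⟨V, hV, -⟩ := h1 univ isOpen_univ ⟨x i0 + EuclideanSpace.single 0 1, trivial, i0,
    un_iff.2 (by simp)⟩
  have : Nonempty (B × S) := ⟨⟨V, hV⟩, 0, h0⟩
  obtain ⟨f, hf⟩ := exists_surjective_nat (B × S)
  obtain ⟨c, pt, h2, h3, h4⟩ := core hx hh (fun n => (f n).1)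
    (fun n => isOpen_of_mem_countableBasis (f n).1.2.1) (fun n => (f n).1.2.2) fun n => (f n).2
  refine ⟨c, range pt, forall_mem_range.2 fun n => (h2 n).2.1, fun U hU h k hk => ?_,
    fun p q hp hq h h' => ?_, fun p h => (h4 p h).imp_right fun ⟨n, hn⟩ => hn ▸ (f n).2.2⟩
  · obtain ⟨V, hV, h5⟩ := h1 U hU h
    obtain ⟨n, hn⟩ := hf (⟨V, hV⟩, ⟨k, hk⟩)
    have := h2 n
    rw [hn] at this
    exact ⟨pt n, h5 this.1, ⟨n, rfl⟩, this.2.2⟩
  · obtain ⟨h5, h6, h7, h8⟩ := h3 p q hp hq h h'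
    exact ⟨h5, fun ⟨n, hn⟩ => h6 n hn.symm, fun ⟨n, hn⟩ => h7 n hn.symm, h8⟩

theorem four (X : Set P) (hX : AlgebraicIndependent ℚ fun j : X × Fin 2 => (j.1 : P) j.2) :
    ∃ c : {p : P // ∃ x ∈ X, dist x p = 1} → Fin 4,
      (∀ p q, dist p q = 1 → c p ≠ c q) ∧ ∀ i, Dense (c ⁻¹' {i}) := by
  classical
  have hW : ∀ p : {p : P // ∃ x ∈ X, dist x p = 1}, InW (fun i : X => (i : P)) p :=
    fun ⟨p, y, h1, h2⟩ => ⟨⟨y, h1⟩, (un_iff.2 h2).symm⟩
  rcases X.eq_empty_or_nonempty with rfl | ⟨x0, h0⟩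
  · have : IsEmpty {p : P // ∃ x ∈ (∅ : Set P), dist x p = 1} := ⟨fun p => by simpa using p.2⟩
    exact ⟨fun _ => 0, isEmptyElim, fun _ => isEmptyElim⟩
  let own : P → X := fun p => if h : InW (fun i : X => (i : P)) p then h.choose else ⟨x0, h0⟩
  have h1 : ∀ p, InW (fun i : X => (i : P)) p → Un p (own p) := fun p h => by
    simp only [own, dif_pos h]
    exact h.choose_spec
  obtain ⟨c, T, h2, h3, h4, -⟩ := core' hX (fun p => decide (WellOrderingRel
    ((zz p - zz (own p)) ^ 3) (-(zz p - zz (own p)) ^ 3))) ⟨x0, h0⟩ univ trivial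
  refine ⟨fun p => c p, fun p q h h' => ?_, fun i => dense_iff_inter_open.2 ?_⟩
  · have h5 := un_iff.2 h
    obtain ⟨h6, -, -, h7⟩ := h4 _ _ (hW p) (hW q) h5 h'
    have h8 := h1 _ (hW p)
    have h9 := h1 _ (hW q)
    rw [← h7 _ _ h8 h9] at h6 h9
    unfold Un at h5 h8 h9
    have h10 : (zz q - zz (own p)) ^ 3 = -(zz p - zz (own p)) ^ 3 := by
      linear_combination (zz p - zz (own p) + (zz q - zz (own p))) * (-(zz p - zz (own p)) ^ 2 * h9
        - (zz q - zz (own p)) ^ 2 * h8 + (zz p - zz (own p)) * (zz q - zz (own p)) * (h8 + h9 - h5))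
    rw [h10, neg_neg, decide_eq_decide] at h6
    rcases trichotomous_of WellOrderingRel ((zz p - zz (own p)) ^ 3) (-(zz p - zz (own p)) ^ 3)
      with h | h | h
    · exact asymm h (h6.1 h)
    · exact pow_ne_zero 3 (left_ne_zero_of_mul_eq_one h8) (by linear_combination h / 2)
    · exact asymm h (h6.2 h)
  · rintro _ ⟨U, hU, rfl⟩ ⟨p, hp⟩
    obtain ⟨q, h5, h6, h7⟩ := h3 U hU ⟨p, hp, hW p⟩ i trivial
    obtain ⟨y, hy⟩ := h2 q h6
    exact ⟨⟨q, y, y.2, un_iff.1 hy.symm⟩, h5, h7⟩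

theorem exists_seven : ∃ c : P → ZMod 7, ∀ p q, dist p q = 1 → c p ≠ c q := by
  have key : ∀ p q : P, dist p q = 1 → p 1 ≤ q 1 →
      ((⌊p 0 * (25 / 18) - 12 / 5 * ⌊p 1 * (25 / 17)⌋⌋ : ℤ) : ZMod 7) ≠
        (⌊q 0 * (25 / 18) - 12 / 5 * ⌊q 1 * (25 / 17)⌋⌋ : ℤ) := fun p q h h1 h2 => by
    rw [EuclideanSpace.dist_eq, Real.sqrt_eq_one, Fin.sum_univ_two, Real.dist_eq, Real.dist_eq,
      sq_abs, sq_abs] at h
    obtain ⟨m, hm⟩ := (ZMod.intCast_eq_intCast_iff_dvd_sub _ _ 7).1 h2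
    have a1 := Int.floor_le (p 1 * (25 / 17))
    have a2 := Int.lt_floor_add_one (p 1 * (25 / 17))
    have a3 := Int.floor_le (q 1 * (25 / 17))
    have a4 := Int.lt_floor_add_one (q 1 * (25 / 17))
    generalize ⌊p 1 * (25 / 17)⌋ = k at *
    generalize ⌊q 1 * (25 / 17)⌋ = l at *
    have b1 := Int.floor_le (p 0 * (25 / 18) - 12 / 5 * k)
    have b2 := Int.lt_floor_add_one (p 0 * (25 / 18) - 12 / 5 * k)
    have b3 := Int.floor_le (q 0 * (25 / 18) - 12 / 5 * l)
    have b4 := Int.lt_floor_add_one (q 0 * (25 / 18) - 12 / 5 * l)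
    generalize ⌊p 0 * (25 / 18) - 12 / 5 * k⌋ = n at *
    generalize ⌊q 0 * (25 / 18) - 12 / 5 * l⌋ = o at *
    have c0 : (o : ℝ) - n = 7 * m := by exact_mod_cast hm
    have c1 : p 0 - q 0 ≤ 1 := by nlinarith [sq_nonneg (p 1 - q 1)]
    have c2 : -1 ≤ p 0 - q 0 := by nlinarith [sq_nonneg (p 1 - q 1)]
    have c3 : q 1 - p 1 ≤ 1 := by nlinarith [sq_nonneg (p 0 - q 0)]
    have d1 : k - 1 < l := by
      have : (k : ℝ) - 1 < l := by linarith
      exact_mod_cast this
    have d2 : l < k + 3 := by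
      have : (l : ℝ) < k + 3 := by linarith
      exact_mod_cast this
    have e : ∀ s : ℤ, (s : ℝ) < m → (m : ℝ) < s + 1 → False := fun s h1 h2 => by
      have h1 : s < m := by exact_mod_cast h1
      have h2 : m < s + 1 := by exact_mod_cast h2
      omega
    obtain rfl | rfl | rfl : l = k ∨ l = k + 1 ∨ l = k + 2 := by omega
    · rcases lt_trichotomy m 0 with h3 | rfl | h3
      · exact e (-1) (by push_cast; linarith) (by exact_mod_cast h3)
      · have f1 : p 0 - q 0 < 18 / 25 := by push_cast at c0; linarith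
        have f2 : q 0 - p 0 < 18 / 25 := by push_cast at c0; linarith
        have f3 : q 1 - p 1 < 17 / 25 := by linarith
        nlinarith
      · exact e 0 (by exact_mod_cast h3) (by push_cast; linarith)
    · push_cast at *
      exact e (-1) (by push_cast; linarith) (by push_cast; linarith)
    · push_cast at *
      have f3 : 17 / 25 < q 1 - p 1 := by linarith
      have f1 : p 0 - q 0 < 37 / 50 := by nlinarith
      have f2 : q 0 - p 0 < 37 / 50 := by nlinarith
      exact e (-1) (by push_cast; linarith) (by push_cast; linarith)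
  exact ⟨_, fun p q h => (le_total (p 1) (q 1)).elim (key p q h)
    fun h' => (key q p (dist_comm p q ▸ h) h').symm⟩

theorem exists_generic (J : Type) [Countable J] (t : J → ℝ) (ε : J → ℝ) (hε : ∀ j, 0 < ε j) :
    ∃ a : J → ℝ, AlgebraicIndependent ℚ a ∧ ∀ j, |a j - t j| < ε j := by
  obtain ⟨s, hs⟩ := exists_isTranscendenceBasis ℚ ℝ
  have : Infinite s := by
    by_contra h
    have := not_infinite_iff_finite.1 h
    have h1 : Countable (IntermediateField.adjoin ℚ (range ((↑) : s → ℝ))) := by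
      rw [← Cardinal.mk_le_aleph0_iff]
      refine (IntermediateField.cardinalMk_adjoin_le ℚ _).trans ?_
      simp
    exact not_countable_univ ((Algebraic.countable (IntermediateField.adjoin ℚ
      (range ((↑) : s → ℝ))) ℝ).mono fun t _ => hs.isAlgebraic_field.1 t)
  obtain ⟨f, hf⟩ := exists_injective_nat J
  have h1 := hs.1.comp _ ((Infinite.natEmbedding s).injective.comp hf)
  generalize Subtype.val ∘ (Infinite.natEmbedding s) ∘ f = r at h1
  choose ρ h2 h3 using fun j => exists_rat_btwn (show t j - r j - ε j < t j - r j + ε j by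
    linarith [hε j])
  refine ⟨_, h1.polynomial_aeval_of_transcendental (f := fun j => .X + .C (ρ j)) fun j =>
    Polynomial.transcendental _ (by simp) (by simp), fun j => ?_⟩
  simp only [map_add, Polynomial.aeval_X, Polynomial.aeval_C, eq_ratCast]
  rw [abs_lt]
  constructor <;> linarith [h2 j, h3 j]

theorem ten : ∃ c : P → Fin 10, (∀ p q, dist p q = 1 → c p ≠ c q) ∧ ∀ i, Dense (c ⁻¹' {i}) := by
  classical
  obtain ⟨c0, h0⟩ := exists_seven
  obtain ⟨a, ha, ha'⟩ := exists_generic ((ℕ × ℕ × ZMod 7) × Fin 2)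
    (fun j => denseSeq P j.1.1 j.2) (fun j => 1 / (j.1.2.1 + 1)) fun _ => Nat.one_div_pos_of_nat
  let x : ℕ × ℕ × ZMod 7 → P := fun i => WithLp.toLp 2 fun k => a (i, k)
  have hx : AlgebraicIndependent ℚ fun j : (ℕ × ℕ × ZMod 7) × Fin 2 => x j.1 j.2 := ha
  have h1 : ∀ U, IsOpen U → U.Nonempty → ∀ k, ∃ i, x i ∈ U ∧ i.2.2 = k := fun U hU h k => by
    obtain ⟨n, hn⟩ := (denseRange_denseSeq P).exists_mem_open hU h
    obtain ⟨ε, hε, h2⟩ := Metric.isOpen_iff.1 hU _ hn
    obtain ⟨m, hm⟩ := exists_nat_one_div_lt (half_pos hε)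
    refine ⟨(n, m, k), h2 ?_, rfl⟩
    rw [Metric.mem_ball, EuclideanSpace.dist_eq, Real.sqrt_lt' hε, Fin.sum_univ_two]
    have h3 : dist (x (n, m, k) 0) (denseSeq P n 0) < ε / 2 := (ha' ((n, m, k), 0)).trans hm
    have h4 : dist (x (n, m, k) 1) (denseSeq P n 1) < ε / 2 := (ha' ((n, m, k), 1)).trans hm
    nlinarith [dist_nonneg (x := x (n, m, k) 0) (y := denseSeq P n 0),
      dist_nonneg (x := x (n, m, k) 1) (y := denseSeq P n 1)]
  obtain ⟨G, hG⟩ := exists_blocks hx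
  have hinj : x.Injective := fun i j h =>
    congrArg Prod.fst (hx.injective (a₁ := (i, 0)) (a₂ := (j, 0)) (congrArg (· 0) h))
  obtain ⟨c, T, h2, h3, h4, h5⟩ := core' hx (fun _ => false) (0, 0, 0) {k | k ≠ 3} (by decide)
  have h6 : ∀ p, c p ≠ 3 := fun p h => by simpa using h5 p h
  let R : Set P := T ∪ {p | ∃ i, Un p (x i) ∧ c0 p = i.2.2}
  have hR : ∀ p ∈ R, InW x p := fun p h => h.elim (h2 p) fun ⟨i, h, _⟩ => ⟨i, h⟩
  let C : P → ZMod 7 ⊕ Fin 3 := Function.extend x (fun i => .inl i.2.2)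
    fun p => if p ∈ R then .inr ((c p).castPred (h6 p)) else .inl (c0 p)
  have c1 : ∀ i, C (x i) = .inl i.2.2 := fun i => hinj.extend_apply _ _ i
  have c2 : ∀ p, (¬ ∃ i, x i = p) →
      C p = if p ∈ R then .inr ((c p).castPred (h6 p)) else .inl (c0 p) :=
    fun p h => Function.extend_apply' _ _ _ h
  have c3 : ∀ p, InW x p → ¬ ∃ i, x i = p := fun p ⟨j, h⟩ ⟨i, h'⟩ => hG.not_un i j (h' ▸ h)
  have c4 : ∀ i q, Un q (x i) → C (x i) ≠ C q := fun i q h h' => by
    rw [c1, c2 q (c3 q ⟨i, h⟩)] at h'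
    split_ifs at h' with h7
    exact h7 (Or.inr ⟨i, h, (Sum.inl.inj h').symm⟩)
  let e : ZMod 7 ⊕ Fin 3 ≃ Fin 10 := Fintype.equivFinOfCardEq (by simp)
  refine ⟨e ∘ C, fun p q h h' => ?_, fun k => dense_iff_inter_open.2 fun U hU h => ?_⟩
  · have h7 := un_iff.2 h
    replace h' := e.injective h'
    by_cases hp : ∃ i, x i = p
    · obtain ⟨i, rfl⟩ := hp
      exact c4 i q h7.symm h'
    by_cases hq : ∃ i, x i = q
    · obtain ⟨i, rfl⟩ := hq
      exact c4 i p h7 h'.symm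
    rw [c2 p hp, c2 q hq] at h'
    split_ifs at h' with h8 h9
    · obtain ⟨-, h10, h11, h12⟩ := h4 p q (hR p h8) (hR q h9) h7
        (Fin.castPred_inj.1 (Sum.inr.inj h'))
      obtain ⟨i, i1, i2⟩ := h8.resolve_left h10
      obtain ⟨j, j1, j2⟩ := h9.resolve_left h11
      exact h0 p q h (by rw [i2, j2, h12 i j i1 j1])
    · exact h0 p q h (Sum.inl.inj h')
  · obtain ⟨k | k, rfl⟩ := e.surjective k
    · obtain ⟨i, h7, rfl⟩ := h1 U hU h k
      exact ⟨_, h7, congrArg e (c1 i)⟩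
    · obtain ⟨i, h7, -⟩ := h1 _ (hU.preimage (continuous_add_const (EuclideanSpace.single 0 1)))
        (h.preimage (add_right_surjective _)) 0
      obtain ⟨p, h8, h9, h10⟩ := h3 U hU ⟨_, h7, i, un_iff.2 (by simp)⟩ k.castSucc
        (Fin.castSucc_ne_last k)
      refine ⟨p, h8, congrArg e ?_⟩
      rw [c2 p (c3 p (h2 p h9)), if_pos (show p ∈ R from Or.inl h9)]
      simp [h10]

end Pool.Agent.MP_5c7750_co

end
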